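import Mathlib
import Pool.Agent.H520R3.Weyl

/-!
Elementary lemmas: exponential sums along arithmetic progressions of perturbations of `1 / y`,
steering of `r ^ k / y ^ 2` towards `√2` modulo one.
-/

set_option autoImplicit false

namespace Pool.Agent.Run7.h792.RN

open Finset Pool.Agent.H520R3

/-- all integers are at distance at least `ρ` of `x` -/
def Far (ρ x : ℝ) : Prop := ∀ p : ℤ, ρ ≤ |x - p|

lemma Far.neg {ρ x : ℝ} (h : Far ρ x) : Far ρ (-x) := by
  intro p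
  have := h (-p)
  rw [show -x - (p : ℝ) = -(x - ((-p : ℤ) : ℝ)) by push_cast; ring, abs_neg]
  exact this

lemma Far.mono {ρ ρ' x : ℝ} (h : Far ρ x) (h' : ρ' ≤ ρ) : Far ρ' x := fun p => h'.trans (h p)

lemma far_scale {ρ x : ℝ} {D : ℕ} (hD : 0 < D) (h : Far ρ (D * x)) : Far (ρ / D) x := by
  intro p
  have h1 := h (D * p)
  have hD' : (0 : ℝ) < D := by exact_mod_cast hD
  rw [div_le_iff₀ hD']
  calc ρ ≤ |(D : ℝ) * x - ((D * p : ℤ) : ℝ)| := h1
    _ = |x - p| * D := by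
      rw [show (D : ℝ) * x - ((D * p : ℤ) : ℝ) = (x - p) * D by push_cast; ring, abs_mul,
        abs_of_pos hD']

lemma geom_far {ρ x : ℝ} (hρ : 0 < ρ) (h : Far ρ x) (m : ℕ) :
    ‖∑ j ∈ range m, e (x * j)‖ ≤ 1 / ρ := by
  have h1 := geom_bound (x := x) (κ := ρ / 2) (by positivity)
    (fun n => lt_of_lt_of_le (by linarith) (h n)) m
  rwa [show 2 * (ρ / 2) = ρ by ring] at h1

/-- the error of the linear approximation of `1 / (y + h)` -/
lemma inv_expand {y h : ℝ} (hy : 1 ≤ y) (hh : 0 ≤ h) :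
    |1 / (y + h) - (1 / y - h / y ^ 2)| ≤ h ^ 2 := by
  have h0 : 0 < y := by linarith
  have h1 : 0 < y + h := by linarith
  have h2 : 1 / (y + h) - (1 / y - h / y ^ 2) = h ^ 2 / (y ^ 2 * (y + h)) := by
    field_simp
    ring
  rw [h2, abs_of_nonneg (by positivity)]
  apply div_le_self (by positivity)
  have h3 : 1 ≤ y ^ 2 := by nlinarith
  nlinarith

lemma avg_term (M : ℕ) {y A u H ρ : ℝ} (hy : 1 ≤ y) (hA : 0 ≤ A) (hu : 0 ≤ u)
    (hH : M * u ≤ H) (hρ : 0 < ρ) (hfar : Far ρ (A * u / y ^ 2)) :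
    ‖∑ U ∈ range M, e (A / (y + U * u))‖ ≤ M * (2 * Real.pi * (A * H ^ 2)) + 1 / ρ := by
  have key : ∀ U ∈ range M,
      ‖e (A / (y + U * u)) - e (A / y) * e ((-(A * u / y ^ 2)) * U)‖
        ≤ 2 * Real.pi * (A * H ^ 2) := by
    intro U hU
    rw [mem_range] at hU
    rw [← e_add]
    refine (norm_e_sub_e_le _ _).trans ?_
    have hUM : (U : ℝ) ≤ M := by exact_mod_cast hU.le
    have hUu0 : 0 ≤ (U : ℝ) * u := by positivity
    have hUu : (U : ℝ) * u ≤ H := (mul_le_mul_of_nonneg_right hUM hu).trans hH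
    have h1 := inv_expand hy hUu0
    have h2 : A / (y + U * u) - (A / y + -(A * u / y ^ 2) * U)
        = A * (1 / (y + U * u) - (1 / y - (U * u) / y ^ 2)) := by
      ring
    rw [h2, abs_mul, abs_of_nonneg hA]
    have h3 : (U * u) ^ 2 ≤ H ^ 2 := by
      apply pow_le_pow_left₀ hUu0 hUu
    have hpi := Real.pi_pos
    have h4 : A * |1 / (y + U * u) - (1 / y - (U * u) / y ^ 2)| ≤ A * H ^ 2 :=
      mul_le_mul_of_nonneg_left (h1.trans h3) hA
    exact mul_le_mul_of_nonneg_left h4 (by positivity)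
  have h5 : ∑ U ∈ range M, e (A / (y + U * u))
      = ∑ U ∈ range M, (e (A / (y + U * u)) - e (A / y) * e ((-(A * u / y ^ 2)) * U))
        + e (A / y) * ∑ U ∈ range M, e ((-(A * u / y ^ 2)) * U) := by
    rw [mul_sum, ← sum_add_distrib]
    exact sum_congr rfl fun U _ => by ring
  rw [h5]
  refine (norm_add_le _ _).trans (add_le_add ?_ ?_)
  · refine (norm_sum_le _ _).trans ?_
    refine (sum_le_sum key).trans ?_
    simp
  · rw [norm_mul, norm_e, one_mul]
    exact geom_far hρ hfar.neg M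

lemma sq_inv_diff {a b : ℝ} (ha : 1 ≤ a) (hab : a ≤ b) :
    0 ≤ 1 / a ^ 2 - 1 / b ^ 2 ∧ 1 / a ^ 2 - 1 / b ^ 2 ≤ 2 * (b - a) := by
  have ha0 : 0 < a := by linarith
  have hb0 : 0 < b := by linarith
  constructor
  · rw [sub_nonneg]
    apply one_div_le_one_div_of_le (by positivity)
    exact pow_le_pow_left₀ ha0.le hab 2
  · have h1 : 1 / a ^ 2 - 1 / b ^ 2 = (b - a) * ((a + b) / (a ^ 2 * b ^ 2)) := by
      field_simp
      ring
    rw [h1, mul_comm 2]
    apply mul_le_mul_of_nonneg_left _ (by linarith)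
    rw [div_le_iff₀ (by positivity)]
    have h2 : 1 ≤ a ^ 2 := by nlinarith
    have h3 : b ≤ b ^ 2 := by nlinarith
    have h4 : b ^ 2 ≤ a ^ 2 * b ^ 2 := by
      have : 0 ≤ b ^ 2 := by positivity
      nlinarith
    nlinarith

/-- steering: `V` with `R / (y + V / (R S)) ^ 2` close to `√2` modulo one -/
lemma steer {y R : ℝ} {S : ℕ} (hy : 1 ≤ y) (hy' : y ≤ 11 / 10) (hR : 10 ≤ R) (hS : 0 < S) :
    ∃ V : ℕ, V < S ∧ ∃ p : ℤ, |R / (y + V / (R * S)) ^ 2 - √2 - p| ≤ 2 / S := by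
  have hS' : (0 : ℝ) < S := by exact_mod_cast hS
  have hR0 : 0 < R := by linarith
  have hy0 : 0 < y := by linarith
  have hy2 : y ^ 2 ≤ 121 / 100 := by nlinarith
  have hy21 : 1 ≤ y ^ 2 := by nlinarith
  set M : ℤ := ⌊R / y ^ 2 - √2⌋ with hM
  have hM1 : (M : ℝ) ≤ R / y ^ 2 - √2 := Int.floor_le _
  have hM2 : R / y ^ 2 - √2 < M + 1 := Int.lt_floor_add_one _
  set t : ℝ := √2 + M with ht
  have ht1 : t ≤ R / y ^ 2 := by linarith
  have ht2 : R / y ^ 2 - 1 < t := by linarith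
  have hRy : 1000 / 121 ≤ R / y ^ 2 := by
    rw [le_div_iff₀ (by positivity)]
    nlinarith
  have ht0 : 0 < t := by linarith
  set z : ℝ := √(R / t) with hz
  have hz2 : z ^ 2 = R / t := Real.sq_sqrt (by positivity)
  have hzt : R / z ^ 2 = t := by
    rw [hz2]
    field_simp
  have hyz : y ≤ z := by
    apply Real.le_sqrt_of_sq_le
    rw [le_div_iff₀ ht0]
    rw [le_div_iff₀ (by positivity)] at ht1
    linarith
  have hz0 : 0 < z := by linarith
  -- `z ^ 2 ≤ 7 / 5`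
  have hz3 : z ^ 2 ≤ 7 / 5 := by
    rw [hz2, div_le_iff₀ ht0]
    have h1 : R ≤ (R / y ^ 2) * (121 / 100) := by
      have : R = (R / y ^ 2) * y ^ 2 := by field_simp
      calc R = (R / y ^ 2) * y ^ 2 := this
        _ ≤ (R / y ^ 2) * (121 / 100) := by
          apply mul_le_mul_of_nonneg_left hy2 (by positivity)
    nlinarith
  -- the displacement is small
  have hd : R * (z - y) < 1 := by
    have h1 : R / y ^ 2 - R / z ^ 2 < 1 := by rw [hzt]; linarith
    have h2 : R / y ^ 2 - R / z ^ 2 = R * (z - y) * ((z + y) / (y ^ 2 * z ^ 2)) := by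
      field_simp
      ring
    rw [h2] at h1
    have h3 : 1 ≤ (z + y) / (y ^ 2 * z ^ 2) := by
      rw [le_div_iff₀ (by positivity)]
      have h4 : y ^ 2 * z ^ 2 ≤ 121 / 100 * (7 / 5) :=
        mul_le_mul hy2 hz3 (by positivity) (by norm_num)
      linarith
    have h5 : 0 ≤ R * (z - y) := by
      apply mul_nonneg hR0.le; linarith
    nlinarith
  have hh0 : 0 ≤ z - y := by linarith
  refine ⟨⌊(z - y) * (R * S)⌋₊, ?_, M, ?_⟩
  · rw [Nat.floor_lt (by positivity)]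
    nlinarith
  · set V := ⌊(z - y) * (R * S)⌋₊ with hV
    have hV1 : (V : ℝ) ≤ (z - y) * (R * S) := Nat.floor_le (by positivity)
    have hV2 : (z - y) * (R * S) < V + 1 := Nat.lt_floor_add_one _
    have hRS : 0 < R * S := by positivity
    have h1 : (V : ℝ) / (R * S) ≤ z - y := by
      rw [div_le_iff₀ hRS]; exact hV1
    have h2 : z - y - V / (R * S) ≤ 1 / (R * S) := by
      rw [sub_le_iff_le_add, ← add_div, le_div_iff₀ hRS]
      linarith
    have h3 : 0 ≤ (V : ℝ) / (R * S) := by positivity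
    obtain ⟨h4, h5⟩ := sq_inv_diff (a := y + V / (R * S)) (b := z) (by linarith) (by linarith)
    have h6 : R / (y + V / (R * S)) ^ 2 - √2 - M
        = R * (1 / (y + V / (R * S)) ^ 2 - 1 / z ^ 2) := by
      have : √2 + (M : ℝ) = R / z ^ 2 := by rw [hzt]
      rw [mul_sub, mul_one_div, mul_one_div, ← this]
      ring
    rw [h6, abs_of_nonneg (mul_nonneg hR0.le h4)]
    calc R * (1 / (y + V / (R * S)) ^ 2 - 1 / z ^ 2)
        ≤ R * (2 * (z - (y + V / (R * S)))) := mul_le_mul_of_nonneg_left h5 hR0.le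
      _ ≤ R * (2 * (1 / (R * S))) := by
        apply mul_le_mul_of_nonneg_left _ hR0.le
        linarith
      _ = 2 / S := by field_simp

/-- `√2` is badly approximable -/
lemma far_sqrt2 {f : ℕ} (hf : 1 ≤ f) : Far (1 / (4 * f)) (f * √2) := by
  intro p
  by_contra hcon
  push Not at hcon
  have hf' : (1 : ℝ) ≤ f := by exact_mod_cast hf
  have hs0 : 0 ≤ √2 := Real.sqrt_nonneg 2
  have hs2 : √2 ^ 2 = 2 := Real.sq_sqrt (by norm_num)
  have hs3 : √2 < 3 / 2 := by nlinarith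
  have h1 : |(f : ℝ) * √2 - p| * |(f : ℝ) * √2 + p| = |((2 * f ^ 2 - p ^ 2 : ℤ) : ℝ)| := by
    rw [← abs_mul]
    congr 1
    push_cast
    nlinarith
  have hne : (2 * (f : ℤ) ^ 2 - p ^ 2 : ℤ) ≠ 0 := by
    intro h0
    have h2 : (p : ℝ) ^ 2 = 2 * (f : ℝ) ^ 2 := by
      have : (p ^ 2 : ℤ) = 2 * (f : ℤ) ^ 2 := by linarith
      exact_mod_cast this
    have h3 : √2 = |(p : ℝ)| / f := by
      have h4 : (|(p : ℝ)| / f) ^ 2 = 2 := by
        rw [div_pow, sq_abs, h2]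
        field_simp
      rw [← h4, Real.sqrt_sq (by positivity)]
    have h5 := irrational_sqrt_two
    apply h5
    refine ⟨(|p| : ℤ) / (f : ℚ), ?_⟩
    rw [h3]
    push_cast
    rfl
  have h6 : (1 : ℝ) ≤ |((2 * f ^ 2 - p ^ 2 : ℤ) : ℝ)| := by
    have : (1 : ℤ) ≤ |(2 * (f : ℤ) ^ 2 - p ^ 2 : ℤ)| := Int.one_le_abs hne
    exact_mod_cast this
  have h7 : |(f : ℝ) * √2 - p| < 1 / 4 := by
    refine hcon.trans_le ?_
    rw [div_le_div_iff₀ (by positivity) (by norm_num)]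
    linarith
  have h8 : |(f : ℝ) * √2 + p| ≤ 4 * f := by
    have h9 : |(f : ℝ) * √2 + p| ≤ 2 * (f * √2) + 1 / 4 := by
      rw [abs_lt] at h7
      have h10 : 0 ≤ (f : ℝ) * √2 := by positivity
      rw [abs_le]
      constructor <;> linarith [h7.1, h7.2]
    nlinarith
  have h11 : |(f : ℝ) * √2 - p| * |(f : ℝ) * √2 + p| < 1 := by
    have h12 : 0 ≤ |(f : ℝ) * √2 - p| := abs_nonneg _
    calc |(f : ℝ) * √2 - p| * |(f : ℝ) * √2 + p|
        ≤ |(f : ℝ) * √2 - p| * (4 * f) := mul_le_mul_of_nonneg_left h8 h12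
      _ < 1 / (4 * f) * (4 * f) := by
        apply mul_lt_mul_of_pos_right hcon (by positivity)
      _ = 1 := by field_simp
  rw [h1] at h11
  linarith

/-- a number close to `√2` modulo one is badly approximable at small frequencies -/
lemma far_of_close {f S : ℕ} {w : ℝ} {p₀ : ℤ} (hf : 1 ≤ f) (hS : 32 * f ^ 2 ≤ S)
    (h : |w - √2 - p₀| ≤ 4 / S) : Far (1 / (8 * f)) (f * w) := by
  intro p
  have hf' : (1 : ℝ) ≤ f := by exact_mod_cast hf
  have hS' : (32 : ℝ) * f ^ 2 ≤ S := by exact_mod_cast hS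
  have hS0 : (0 : ℝ) < S := by nlinarith
  have h1 := far_sqrt2 hf (p - f * p₀)
  have h2 : (f : ℝ) * w - p = ((f : ℝ) * √2 - ((p - f * p₀ : ℤ) : ℝ)) + f * (w - √2 - p₀) := by
    push_cast
    ring
  rw [h2]
  have h3 : |(f : ℝ) * (w - √2 - p₀)| ≤ 1 / (8 * f) := by
    rw [abs_mul, abs_of_nonneg (by linarith : (0 : ℝ) ≤ f)]
    calc (f : ℝ) * |w - √2 - p₀| ≤ f * (4 / S) := by
          apply mul_le_mul_of_nonneg_left h; linarith
      _ ≤ 1 / (8 * f) := by
        rw [le_div_iff₀ (by positivity), mul_comm (f : ℝ) (4 / S), mul_assoc, div_mul_eq_mul_div,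
          div_le_iff₀ hS0]
        nlinarith
  have h4 : (1 : ℝ) / (4 * f) = 1 / (8 * f) + 1 / (8 * f) := by
    field_simp
    norm_num
  have h5 := abs_add_le ((f : ℝ) * √2 - ((p - f * p₀ : ℤ) : ℝ) + f * (w - √2 - p₀))
    (-(f * (w - √2 - p₀)))
  rw [abs_neg] at h5
  have h6 : (f : ℝ) * √2 - ((p - f * p₀ : ℤ) : ℝ) + f * (w - √2 - p₀) + -(f * (w - √2 - p₀))
      = (f : ℝ) * √2 - ((p - f * p₀ : ℤ) : ℝ) := by ring
  rw [h6] at h5
  linarith

end Pool.Agent.Run7.h792.RN
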