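import Mathlib
import Pool.Agent.Run7.h792.RN.Basic

/-!
The recursive construction of the digits of `y`.
-/

set_option autoImplicit false

namespace Pool.Agent.Run7.h792.RN

open Finset Pool.Agent.H520R3

def q (i : ℕ) : ℕ := Nat.sqrt (i + 40)
def k (i : ℕ) : ℕ := (i + 40) ^ 2
def s (i : ℕ) : ℕ := q i
def l (i : ℕ) : ℕ := 10 * q i
def m (i : ℕ) : ℕ := k i + 11 * q i

lemma q_sq_le (i : ℕ) : q i * q i ≤ i + 40 := Nat.sqrt_le _

lemma lt_q_succ (i : ℕ) : i + 40 < (q i + 1) * (q i + 1) := Nat.lt_succ_sqrt _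

lemma six_le_q (i : ℕ) : 6 ≤ q i := by
  have h := lt_q_succ i
  by_contra hc
  push Not at hc
  have : q i + 1 ≤ 6 := by omega
  have := Nat.mul_le_mul this this
  omega

lemma k_succ (i : ℕ) : k (i + 1) = k i + 2 * (i + 40) + 1 := by
  unfold k; ring

lemma m_lt (i : ℕ) : m i < k (i + 1) := by
  rw [k_succ]
  unfold m
  have h1 := q_sq_le i
  have h2 := six_le_q i
  have h3 : 6 * q i ≤ q i * q i := Nat.mul_le_mul_right _ h2
  omega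

lemma m_eq (i : ℕ) : m i = k i + s i + l i := by
  unfold m s l; ring

lemma k_lt_m (i : ℕ) : k i < m i := by
  unfold m
  have := six_le_q i
  omega

lemma k_mono : StrictMono k := strictMono_nat_of_lt_succ fun i => (k_lt_m i).trans (m_lt i)

lemma le_k (i : ℕ) : i + 5 ≤ k i := by
  unfold k
  nlinarith

lemma k_eq (i : ℕ) : k i = (i + 40) ^ 2 := rfl

lemma s_eq (i : ℕ) : s i = q i := rfl

lemma l_eq (i : ℕ) : l i = 10 * q i := rfl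

lemma k_add_le (i : ℕ) : k i + s i ≤ k (i + 1) := by
  have := m_lt i
  rw [m_eq] at this
  omega

attribute [irreducible] q k s l m

/-- number of exponents in the `i`-th window -/
def B (i : ℕ) : ℕ := k (i + 1) - m i

lemma B_le (i : ℕ) : B i ≤ 2 * (i + 40) + 1 := by
  unfold B
  have := k_succ i
  have := k_lt_m i
  omega

noncomputable def Z (r i : ℕ) (y : ℝ) (f : ℕ) : ℂ :=
  ∑ n ∈ Ico (m i) (k (i + 1)), e ((f + 1 : ℕ) * (r : ℝ) ^ n / y)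

lemma norm_Z_le (r i : ℕ) (y : ℝ) (f : ℕ) : ‖Z r i y f‖ ≤ B i := by
  unfold Z B
  refine (norm_sum_le _ _).trans ?_
  simp only [norm_e, sum_const, Nat.card_Ico, nsmul_eq_mul, mul_one]
  exact le_refl _

noncomputable def avgZ (r i : ℕ) (y : ℝ) (f : ℕ) : ℂ :=
  (∑ U ∈ range (r ^ l i), Z r i (y + U / (r : ℝ) ^ m i) f) / (r : ℂ) ^ l i

lemma pigeon {M : ℕ} (hM : 0 < M) (F : ℕ) (T : ℕ → ℂ) (z : ℕ → ℕ → ℂ) (b : ℝ)
    (hz : ∀ U f, ‖z U f‖ ≤ b) :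
    ∃ U, U < M ∧ ∑ f ∈ range F, (1 / 2 : ℝ) ^ f * ‖T f + z U f‖ ^ 2 ≤
      ∑ f ∈ range F, (1 / 2 : ℝ) ^ f *
        (‖T f‖ ^ 2 + 2 * ‖T f‖ * ‖(∑ U ∈ range M, z U f) / (M : ℂ)‖ + b ^ 2) := by
  have hM' : (0 : ℝ) < M := by exact_mod_cast hM
  have hb : ∀ U f, ‖z U f‖ ^ 2 ≤ b ^ 2 := fun U f => pow_le_pow_left₀ (norm_nonneg _) (hz U f) 2
  have key : ∑ U ∈ range M, ∑ f ∈ range F, (1 / 2 : ℝ) ^ f * ‖T f + z U f‖ ^ 2 ≤
      ∑ U ∈ range M, ∑ f ∈ range F, (1 / 2 : ℝ) ^ f *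
        (‖T f‖ ^ 2 + 2 * ‖T f‖ * ‖(∑ U ∈ range M, z U f) / (M : ℂ)‖ + b ^ 2) := by
    rw [sum_comm]
    conv_rhs => rw [sum_comm]
    apply sum_le_sum
    intro f _
    rw [← mul_sum, ← mul_sum]
    apply mul_le_mul_of_nonneg_left _ (by positivity)
    have h1 : ∀ U ∈ range M, ‖T f + z U f‖ ^ 2
        = ‖T f‖ ^ 2 + 2 * inner ℝ (T f) (z U f) + ‖z U f‖ ^ 2 := by
      intro U _
      exact norm_add_sq_real _ _
    rw [sum_congr rfl h1, sum_add_distrib, sum_add_distrib, ← mul_sum, ← inner_sum]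
    rw [sum_add_distrib, sum_add_distrib]
    have h2 : ∑ U ∈ range M, ‖z U f‖ ^ 2 ≤ ∑ U ∈ range M, b ^ 2 := sum_le_sum fun U _ => hb U f
    have h3 : inner ℝ (T f) (∑ U ∈ range M, z U f) ≤ ‖T f‖ * ‖∑ U ∈ range M, z U f‖ :=
      real_inner_le_norm _ _
    have h4 : ∑ _U ∈ range M, 2 * ‖T f‖ * ‖(∑ U ∈ range M, z U f) / (M : ℂ)‖
        = 2 * (‖T f‖ * ‖∑ U ∈ range M, z U f‖) := by
      rw [sum_const, card_range, nsmul_eq_mul, norm_div, Complex.norm_natCast]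
      field_simp
    rw [h4]
    linarith
  obtain ⟨U, hU, h⟩ := exists_le_of_sum_le (by simpa using hM.ne') key
  exact ⟨U, mem_range.1 hU, h⟩

/-- invariant of the states -/
def P (r i : ℕ) (σ : ℝ × (ℕ → ℂ)) : Prop :=
  1 ≤ σ.1 ∧ σ.1 ≤ 11 / 10 - 1 / 10 * (1 / 2 : ℝ) ^ i ∧ ∃ A : ℕ, σ.1 * (r : ℝ) ^ k i = A

/-- one step of the construction, with the digits `V`, `U` of the block -/
def Step (r i : ℕ) (σ τ : ℝ × (ℕ → ℂ)) (V U : ℕ) : Prop :=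
  V < r ^ s i ∧ U < r ^ l i ∧
  (∃ p : ℤ, |(r : ℝ) ^ k i / (σ.1 + V / ((r : ℝ) ^ k i * (r : ℝ) ^ s i)) ^ 2 - √2 - p|
    ≤ 2 / (r : ℝ) ^ s i) ∧
  τ.1 = σ.1 + V / ((r : ℝ) ^ k i * (r : ℝ) ^ s i) + U / (r : ℝ) ^ m i ∧
  (∀ f, τ.2 f = σ.2 f + Z r i τ.1 f) ∧
  ∑ f ∈ range (i + 1), (1 / 2 : ℝ) ^ f * ‖τ.2 f‖ ^ 2 ≤
    ∑ f ∈ range (i + 1), (1 / 2 : ℝ) ^ f * (‖σ.2 f‖ ^ 2
      + 2 * ‖σ.2 f‖ * ‖avgZ r i (σ.1 + V / ((r : ℝ) ^ k i * (r : ℝ) ^ s i)) f‖ + (B i : ℝ) ^ 2)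

variable {r : ℕ}

lemma block_le (hr : 2 ≤ r) {i V U : ℕ} (hV : V < r ^ s i) (hU : U < r ^ l i) :
    (V : ℝ) / ((r : ℝ) ^ k i * (r : ℝ) ^ s i) + U / (r : ℝ) ^ m i
      ≤ 1 / (r : ℝ) ^ k i - 1 / (r : ℝ) ^ m i := by
  have hr0 : (0 : ℝ) < r := by positivity
  have h1 : (V : ℝ) + 1 ≤ (r : ℝ) ^ s i := by exact_mod_cast hV
  have h2 : (U : ℝ) + 1 ≤ (r : ℝ) ^ l i := by exact_mod_cast hU
  have h3 : (r : ℝ) ^ m i = (r : ℝ) ^ k i * (r : ℝ) ^ s i * (r : ℝ) ^ l i := by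
    rw [m_eq, pow_add, pow_add]
  have hK : (0 : ℝ) < (r : ℝ) ^ k i := by positivity
  have hS : (0 : ℝ) < (r : ℝ) ^ s i := by positivity
  have hL : (0 : ℝ) < (r : ℝ) ^ l i := by positivity
  rw [h3]
  set K := (r : ℝ) ^ k i
  set S := (r : ℝ) ^ s i
  set L := (r : ℝ) ^ l i
  have h4 : (V : ℝ) / (K * S) + U / (K * S * L) = (V * L + U) / (K * S * L) := by
    field_simp
  have h5 : 1 / K - 1 / (K * S * L) = (S * L - 1) / (K * S * L) := by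
    field_simp
  rw [h4, h5]
  apply div_le_div_of_nonneg_right _ (by positivity)
  nlinarith

lemma exists_step (hr : 2 ≤ r) (i : ℕ) (σ : ℝ × (ℕ → ℂ)) (hσ : P r i σ) :
    ∃ τ, P r (i + 1) τ ∧ ∃ V U, Step r i σ τ V U := by
  obtain ⟨h1, h2, A, hA⟩ := hσ
  have hr0 : (0 : ℝ) < r := by positivity
  have hr2 : (2 : ℝ) ≤ r := by exact_mod_cast hr
  have hK : (0 : ℝ) < (r : ℝ) ^ k i := by positivity
  have hR : (10 : ℝ) ≤ (r : ℝ) ^ k i := by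
    calc (10 : ℝ) ≤ 2 ^ 5 := by norm_num
      _ ≤ (r : ℝ) ^ 5 := pow_le_pow_left₀ (by norm_num) hr2 5
      _ ≤ (r : ℝ) ^ k i := pow_le_pow_right₀ (by linarith) (by have := le_k i; omega)
  have hy' : σ.1 ≤ 11 / 10 := by
    have : (0 : ℝ) < (1 / 2 : ℝ) ^ i := by positivity
    linarith
  obtain ⟨V, hV, p, hp⟩ := steer (S := r ^ s i) h1 hy' hR (by positivity)
  push_cast at hp
  set y'' := σ.1 + V / ((r : ℝ) ^ k i * (r : ℝ) ^ s i) with hy''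
  obtain ⟨U, hU, hpot⟩ := pigeon (M := r ^ l i) (by positivity) (i + 1) σ.2
    (fun U f => Z r i (y'' + U / (r : ℝ) ^ m i) f) (B i) (fun U f => norm_Z_le _ _ _ _)
  refine ⟨(y'' + U / (r : ℝ) ^ m i, fun f => σ.2 f + Z r i (y'' + U / (r : ℝ) ^ m i) f),
    ⟨?_, ?_, ?_⟩, V, U, hV, hU, ⟨p, hp⟩, rfl, fun f => rfl, ?_⟩
  · simp only [hy'']
    have h3 : (0 : ℝ) ≤ V / ((r : ℝ) ^ k i * (r : ℝ) ^ s i) := by positivity
    have h4 : (0 : ℝ) ≤ U / (r : ℝ) ^ m i := by positivity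
    linarith
  · simp only [hy'']
    have h3 := block_le hr hV hU
    have h4 : (0 : ℝ) < 1 / (r : ℝ) ^ m i := by positivity
    have h5 : 1 / (r : ℝ) ^ k i ≤ 1 / 10 * (1 / 2) ^ (i + 1) := by
      have h6 : (10 : ℝ) * 2 ^ (i + 1) ≤ (r : ℝ) ^ k i := by
        calc (10 : ℝ) * 2 ^ (i + 1) ≤ 2 ^ 4 * 2 ^ (i + 1) := by
              apply mul_le_mul_of_nonneg_right (by norm_num) (by positivity)
          _ = 2 ^ (i + 5) := by rw [← pow_add]; congr 1; ring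
          _ ≤ (r : ℝ) ^ (i + 5) := pow_le_pow_left₀ (by norm_num) hr2 _
          _ ≤ (r : ℝ) ^ k i := pow_le_pow_right₀ (by linarith) (le_k i)
      rw [one_div_pow, div_mul_div_comm, one_mul]
      exact one_div_le_one_div_of_le (by positivity) h6
    have h7 : (1 / 2 : ℝ) ^ i = 2 * (1 / 2) ^ (i + 1) := by rw [pow_succ]; ring
    rw [h7] at h2
    linarith
  · -- integrality
    have h3 : k i + s i ≤ k (i + 1) := k_add_le i
    have h4 : m i ≤ k (i + 1) := (m_lt i).le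
    refine ⟨A * r ^ (k (i + 1) - k i) + V * r ^ (k (i + 1) - (k i + s i))
      + U * r ^ (k (i + 1) - m i), ?_⟩
    have e1 : (r : ℝ) ^ k (i + 1) = (r : ℝ) ^ k i * (r : ℝ) ^ (k (i + 1) - k i) := by
      rw [← pow_add, Nat.add_sub_cancel' (by omega)]
    have e2 : (r : ℝ) ^ k (i + 1)
        = (r : ℝ) ^ k i * (r : ℝ) ^ s i * (r : ℝ) ^ (k (i + 1) - (k i + s i)) := by
      rw [← pow_add, ← pow_add, Nat.add_sub_cancel' h3]
    have e3 : (r : ℝ) ^ k (i + 1) = (r : ℝ) ^ m i * (r : ℝ) ^ (k (i + 1) - m i) := by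
      rw [← pow_add, Nat.add_sub_cancel' h4]
    have e4 : (V : ℝ) / ((r : ℝ) ^ k i * (r : ℝ) ^ s i) * (r : ℝ) ^ k (i + 1)
        = V * (r : ℝ) ^ (k (i + 1) - (k i + s i)) := by
      rw [e2]; field_simp
    have e5 : (U : ℝ) / (r : ℝ) ^ m i * (r : ℝ) ^ k (i + 1) = U * (r : ℝ) ^ (k (i + 1) - m i) := by
      rw [e3]; field_simp
    have e6 : σ.1 * (r : ℝ) ^ k (i + 1) = A * (r : ℝ) ^ (k (i + 1) - k i) := by
      rw [e1, ← mul_assoc, hA]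
    simp only [hy'']
    rw [add_mul, add_mul, e4, e5, e6]
    push_cast
    ring
  · have h8 : ((r ^ l i : ℕ) : ℂ) = (r : ℂ) ^ l i := by push_cast; rfl
    rw [h8] at hpot
    exact hpot

lemma exists_seq_aux {α : Type*} (Q : ℕ → α → Prop) (R : ℕ → α → α → Prop) (a : α) (h0 : Q 0 a)
    (h : ∀ n x, Q n x → ∃ z, Q (n + 1) z ∧ R n x z) :
    ∃ f : ℕ → α, f 0 = a ∧ ∀ n, Q n (f n) ∧ R n (f n) (f (n + 1)) := by
  classical
  choose! g hg using h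
  let f : ℕ → α := fun n => Nat.rec a (fun n x => g n x) n
  have hf : ∀ n, Q n (f n) := by
    intro n
    induction n with
    | zero => exact h0
    | succ n ih => exact (hg n (f n) ih).1
  exact ⟨f, rfl, fun n => ⟨hf n, (hg n (f n) (hf n)).2⟩⟩

/-- the sequence of states -/
theorem exists_states (hr : 2 ≤ r) :
    ∃ (Y : ℕ → ℝ) (T : ℕ → ℕ → ℂ) (V U : ℕ → ℕ), Y 0 = 1 ∧ (∀ f, T 0 f = 0) ∧
      (∀ i, P r i (Y i, T i)) ∧ ∀ i, Step r i (Y i, T i) (Y (i + 1), T (i + 1)) (V i) (U i) := by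
  have h0 : P r 0 ((1 : ℝ), fun _ => (0 : ℂ)) := by
    refine ⟨le_refl _, by norm_num, r ^ k 0, by push_cast; ring⟩
  obtain ⟨f, hf0, hf⟩ := exists_seq_aux (P r) (fun i σ τ => ∃ V U, Step r i σ τ V U) _ h0
    (fun n x hx => exists_step hr n x hx)
  choose V U hVU using fun n => (hf n).2
  refine ⟨fun i => (f i).1, fun i => (f i).2, V, U, by simp [hf0], fun g => by simp [hf0],
    fun i => (hf i).1, hVU⟩

end Pool.Agent.Run7.h792.RN
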