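import Mathlib
import Pool.Agent.Run7.h792.RN.Rec

/-!
Analysis of the recursive construction: the exponential sums of `r ^ n / y`.
-/

set_option autoImplicit false

namespace Pool.Agent.Run7.h792.RN

open Finset Filter Topology Pool.Agent.H520R3

lemma tendsto_q : Tendsto q atTop atTop := by
  refine tendsto_atTop.2 fun b => ?_
  filter_upwards [eventually_ge_atTop (b * b)] with i hi
  by_contra hc
  push Not at hc
  have h1 := lt_q_succ i
  have h2 : q i + 1 ≤ b := hc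
  have := Nat.mul_le_mul h2 h2
  omega

/-- Stolz type lemma -/
lemma stolz {g K : ℕ → ℝ} (hK : Tendsto K atTop atTop)
    (h : ∀ ε : ℝ, 0 < ε → ∀ᶠ i in atTop, g (i + 1) - g i ≤ ε * (K (i + 1) - K i)) :
    ∀ ε : ℝ, 0 < ε → ∀ᶠ i in atTop, g i ≤ ε * K i := by
  intro ε hε
  obtain ⟨i₀, hi₀⟩ := eventually_atTop.1 (h (ε / 2) (by positivity))
  have h1 : ∀ i, i₀ ≤ i → g i ≤ g i₀ - ε / 2 * K i₀ + ε / 2 * K i := by
    intro i hi
    induction i, hi using Nat.le_induction with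
    | base => linarith
    | succ n hn ih =>
      have := hi₀ n hn
      linarith
  have h2 : ∀ᶠ i in atTop, (g i₀ - ε / 2 * K i₀) * (2 / ε) ≤ K i :=
    hK.eventually_ge_atTop _
  filter_upwards [eventually_ge_atTop i₀, h2] with i hi hi2
  have h3 := h1 i hi
  have h4 : g i₀ - ε / 2 * K i₀ ≤ ε / 2 * K i := by
    have := mul_le_mul_of_nonneg_left hi2 (by positivity : 0 ≤ ε / 2)
    calc g i₀ - ε / 2 * K i₀ = ε / 2 * ((g i₀ - ε / 2 * K i₀) * (2 / ε)) := by field_simp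
      _ ≤ ε / 2 * K i := this
  linarith

lemma tendsto_k : Tendsto (fun i => (k i : ℝ)) atTop atTop := by
  apply tendsto_natCast_atTop_atTop.comp
  exact k_mono.tendsto_atTop

/-- the data of the construction -/
structure Dat (r : ℕ) where
  Y : ℕ → ℝ
  T : ℕ → ℕ → ℂ
  V : ℕ → ℕ
  U : ℕ → ℕ
  hr : 2 ≤ r
  Y0 : Y 0 = 1
  T0 : ∀ f, T 0 f = 0
  hP : ∀ i, P r i (Y i, T i)
  hS : ∀ i, Step r i (Y i, T i) (Y (i + 1), T (i + 1)) (V i) (U i)

theorem exists_dat {r : ℕ} (hr : 2 ≤ r) : Nonempty (Dat r) := by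
  obtain ⟨Y, T, V, U, h1, h2, h3, h4⟩ := exists_states hr
  exact ⟨⟨Y, T, V, U, hr, h1, h2, h3, h4⟩⟩

namespace Dat

variable {r : ℕ} (d : Dat r)

include d in
lemma r0 : (0 : ℝ) < r := by
  have := d.hr
  positivity

include d in
lemma r2 : (2 : ℝ) ≤ r := by exact_mod_cast d.hr

/-- the number after the steering digits -/
noncomputable def Z2 (i : ℕ) : ℝ := d.Y i + d.V i / ((r : ℝ) ^ k i * (r : ℝ) ^ s i)

lemma one_le_Y (i : ℕ) : 1 ≤ d.Y i := (d.hP i).1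

lemma Y_succ (i : ℕ) : d.Y (i + 1) = d.Z2 i + d.U i / (r : ℝ) ^ m i := (d.hS i).2.2.2.1

lemma Y_le_Z2 (i : ℕ) : d.Y i ≤ d.Z2 i := by
  have := d.r0
  unfold Z2
  have : (0 : ℝ) ≤ d.V i / ((r : ℝ) ^ k i * (r : ℝ) ^ s i) := by positivity
  linarith

lemma Z2_le_Y (i : ℕ) : d.Z2 i ≤ d.Y (i + 1) := by
  have := d.r0
  rw [Y_succ]
  have : (0 : ℝ) ≤ d.U i / (r : ℝ) ^ m i := by positivity
  linarith

lemma Y_mono : Monotone d.Y :=
  monotone_nat_of_le_succ fun i => (d.Y_le_Z2 i).trans (d.Z2_le_Y i)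

/-- upper ends of the nested intervals -/
noncomputable def W (i : ℕ) : ℝ := d.Y i + 1 / (r : ℝ) ^ k i

include d in
lemma inv_pow_lt (i : ℕ) : 1 / (r : ℝ) ^ k (i + 1) < 1 / (r : ℝ) ^ m i := by
  have := d.r0
  apply one_div_lt_one_div_of_lt (by positivity)
  exact pow_lt_pow_right₀ (by have := d.r2; linarith) (m_lt i)

lemma W_lt (i : ℕ) : d.W (i + 1) < d.W i := by
  unfold W
  have h1 := block_le d.hr (d.hS i).1 (d.hS i).2.1
  have h2 := d.Y_succ i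
  have h3 := d.inv_pow_lt i
  unfold Z2 at h2
  linarith

lemma W_anti : StrictAnti d.W := strictAnti_nat_of_succ_lt d.W_lt

lemma Y_le_W (i j : ℕ) : d.Y i ≤ d.W j := by
  have hr := d.r0
  have h1 : ∀ n, d.Y n ≤ d.W n := fun n => by
    unfold W
    have : (0 : ℝ) < 1 / (r : ℝ) ^ k n := by positivity
    linarith
  exact (d.Y_mono (le_max_left i j)).trans
    ((h1 _).trans (d.W_anti.antitone (le_max_right i j)))

/-- the limit -/
noncomputable def y : ℝ := ⨆ i, d.Y i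

lemma bdd : BddAbove (Set.range d.Y) := ⟨d.W 0, by rintro _ ⟨i, rfl⟩; exact d.Y_le_W i 0⟩

lemma Y_le_y (i : ℕ) : d.Y i ≤ d.y := le_ciSup d.bdd i

lemma y_le_W (i : ℕ) : d.y ≤ d.W i := ciSup_le fun j => d.Y_le_W j i

lemma y_lt_W (i : ℕ) : d.y < d.W i := (d.y_le_W (i + 1)).trans_lt (d.W_lt i)

lemma one_le_y : 1 ≤ d.y := (d.one_le_Y 0).trans (d.Y_le_y 0)

/-- `W (i + 1)` is below the steering interval -/
lemma W_succ_le (i : ℕ) : d.W (i + 1) ≤ d.Z2 i + 1 / ((r : ℝ) ^ k i * (r : ℝ) ^ s i) := by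
  have hr := d.r0
  have h1 := d.Y_succ i
  have h2 := d.inv_pow_lt i
  unfold W
  rw [h1]
  have h3 : (d.U i : ℝ) + 1 ≤ (r : ℝ) ^ l i := by exact_mod_cast (d.hS i).2.1
  have h4 : (r : ℝ) ^ m i = (r : ℝ) ^ k i * (r : ℝ) ^ s i * (r : ℝ) ^ l i := by
    rw [m_eq, pow_add, pow_add]
  have h5 : (d.U i : ℝ) / (r : ℝ) ^ m i + 1 / (r : ℝ) ^ m i
      ≤ 1 / ((r : ℝ) ^ k i * (r : ℝ) ^ s i) := by
    rw [← add_div, h4, div_le_div_iff₀ (by positivity) (by positivity)]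
    have : (0 : ℝ) < (r : ℝ) ^ k i * (r : ℝ) ^ s i := by positivity
    nlinarith
  linarith

lemma close {i : ℕ} {z : ℝ} (h1 : d.Z2 i ≤ z) (h2 : z ≤ d.W (i + 1)) :
    ∃ p : ℤ, |(r : ℝ) ^ k i / z ^ 2 - √2 - p| ≤ 4 / (r : ℝ) ^ s i := by
  have hr := d.r0
  obtain ⟨p, hp⟩ := (d.hS i).2.2.1
  refine ⟨p, ?_⟩
  have h3 : |(r : ℝ) ^ k i / (d.Z2 i) ^ 2 - √2 - p| ≤ 2 / (r : ℝ) ^ s i := hp
  have h4 : 1 ≤ d.Z2 i := (d.one_le_Y i).trans (d.Y_le_Z2 i)
  obtain ⟨h5, h6⟩ := sq_inv_diff h4 h1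
  have hK : (0 : ℝ) < (r : ℝ) ^ k i := by positivity
  have hS : (0 : ℝ) < (r : ℝ) ^ s i := by positivity
  have h7 : z - d.Z2 i ≤ 1 / ((r : ℝ) ^ k i * (r : ℝ) ^ s i) := by
    have := d.W_succ_le i
    linarith
  have h8 : (r : ℝ) ^ k i * (1 / (d.Z2 i) ^ 2 - 1 / z ^ 2) ≤ 2 / (r : ℝ) ^ s i := by
    calc (r : ℝ) ^ k i * (1 / (d.Z2 i) ^ 2 - 1 / z ^ 2)
        ≤ (r : ℝ) ^ k i * (2 * (1 / ((r : ℝ) ^ k i * (r : ℝ) ^ s i))) := by
          apply mul_le_mul_of_nonneg_left _ hK.le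
          linarith
      _ = 2 / (r : ℝ) ^ s i := by field_simp
  have h9 : 0 ≤ (r : ℝ) ^ k i * (1 / (d.Z2 i) ^ 2 - 1 / z ^ 2) := mul_nonneg hK.le h5
  have h10 : (r : ℝ) ^ k i / z ^ 2 - √2 - p = ((r : ℝ) ^ k i / (d.Z2 i) ^ 2 - √2 - p)
      - (r : ℝ) ^ k i * (1 / (d.Z2 i) ^ 2 - 1 / z ^ 2) := by
    ring
  rw [h10]
  rw [abs_le] at h3 ⊢
  have h11 : (4 : ℝ) / (r : ℝ) ^ s i = 2 / (r : ℝ) ^ s i + 2 / (r : ℝ) ^ s i := by
    rw [← add_div]; norm_num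
  rw [h11]
  constructor <;> linarith [h3.1, h3.2]

/-- small frequencies are far from the integers at every exponent `j ≤ k i` -/
lemma far_at {f i j : ℕ} {z : ℝ} (hf : 1 ≤ f) (hi : 32 * f ^ 2 ≤ r ^ s i) (h1 : d.Z2 i ≤ z)
    (h2 : z ≤ d.W (i + 1)) (hj : j ≤ k i) :
    Far (1 / (8 * f) / (r : ℝ) ^ (k i - j)) (f * (r : ℝ) ^ j / z ^ 2) := by
  have hr := d.r0
  obtain ⟨p, hp⟩ := d.close h1 h2
  have h3 : |(r : ℝ) ^ k i / z ^ 2 - √2 - p| ≤ 4 / ((r ^ s i : ℕ) : ℝ) := by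
    push_cast; exact hp
  have h4 := far_of_close hf hi h3
  have h5 : (f : ℝ) * ((r : ℝ) ^ k i / z ^ 2)
      = ((r ^ (k i - j) : ℕ) : ℝ) * (f * (r : ℝ) ^ j / z ^ 2) := by
    have : (r : ℝ) ^ k i = (r : ℝ) ^ (k i - j) * (r : ℝ) ^ j := by
      rw [← pow_add, Nat.sub_add_cancel hj]
    rw [this]
    push_cast
    ring
  rw [h5] at h4
  have h6 := far_scale (by have := d.hr; positivity) h4
  push_cast at h6
  exact h6

end Dat

/-- `B i` is small compared with powers of two of `q i` -/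
lemma B_le_two_pow (i : ℕ) : (B i : ℝ) ≤ 2 ^ (q i + 1) := by
  have h1 : ∀ n : ℕ, 6 ≤ n → 2 * (n + 1) ^ 2 + 1 ≤ 2 ^ (n + 1) := by
    intro n hn
    induction n, hn using Nat.le_induction with
    | base => norm_num
    | succ n hn ih =>
      rw [pow_succ 2 (n + 1)]
      nlinarith
  have h2 := h1 (q i) (six_le_q i)
  have h3 := B_le i
  have h4 := lt_q_succ i
  have h5 : B i ≤ 2 ^ (q i + 1) := by
    have : (q i + 1) ^ 2 = (q i + 1) * (q i + 1) := sq _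
    omega
  exact_mod_cast h5

lemma sqrt_B_le (i : ℕ) : Nat.sqrt (B i) ≤ 2 * q i := by
  have h3 := B_le i
  have h4 := lt_q_succ i
  have h6 := six_le_q i
  have h5 : B i ≤ (2 * q i) * (2 * q i) := by nlinarith
  calc Nat.sqrt (B i) ≤ Nat.sqrt ((2 * q i) * (2 * q i)) := Nat.sqrt_le_sqrt h5
    _ = 2 * q i := Nat.sqrt_eq _

namespace Dat

variable {r : ℕ} (d : Dat r)

/-- the averages over the random digits are small -/
lemma avg_bound (f : ℕ) (hf : 1 ≤ f) : ∃ (C : ℝ) (I₀ : ℕ), 0 ≤ C ∧ ∀ I, I₀ ≤ I →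
    ‖avgZ r I (d.Z2 I) (f - 1)‖ ≤ C / 2 ^ q I := by
  have hr := d.r0
  have hr2 := d.r2
  have hr1 : (1 : ℝ) ≤ r := by linarith
  -- choice of `i₀`
  obtain ⟨i₀, hi₀⟩ : ∃ i₀, ∀ i, i₀ ≤ i → 32 * f ^ 2 ≤ r ^ s i := by
    obtain ⟨i₀, hi₀⟩ := eventually_atTop.1 (tendsto_q.eventually_ge_atTop (32 * f ^ 2))
    refine ⟨i₀, fun i hi => ?_⟩
    have h1 := hi₀ i hi
    rw [s_eq]
    calc 32 * f ^ 2 ≤ q i := h1
      _ ≤ r ^ q i := (Nat.lt_pow_self (by have := d.hr; omega)).le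
  obtain ⟨I₁, hI₁⟩ : ∃ I₁, ∀ i, I₁ ≤ i → 3 * q i + 40 ≤ i := by
    refine ⟨10000, fun i hi => ?_⟩
    have h1 := q_sq_le i
    by_contra hc
    push Not at hc
    have h2 : 100 ≤ q i := by
      have h3 := lt_q_succ i
      by_contra h4
      push Not at h4
      have : q i + 1 ≤ 100 := by omega
      have := Nat.mul_le_mul this this
      omega
    nlinarith
  refine ⟨2 * Real.pi * f * r + 8 * f * (r : ℝ) ^ (k i₀ + 2), max (i₀ + 1) I₁, by positivity,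
    fun I hI => ?_⟩
  have hI1 : i₀ + 1 ≤ I := (le_max_left _ _).trans hI
  have hI2 : 3 * q I + 40 ≤ I := hI₁ I ((le_max_right _ _).trans hI)
  set Dm : ℕ := k i₀ + 4 * q I + 1 with hDm
  have hone : 1 ≤ d.Z2 I := (d.one_le_Y I).trans (d.Y_le_Z2 I)
  have hf0 : (1 : ℝ) ≤ f := by exact_mod_cast hf
  -- far bound
  have hfar : ∀ j, j < B I → Far (1 / (8 * f) / (r : ℝ) ^ Dm)
      (f * (r : ℝ) ^ j / (d.Z2 I) ^ 2) := by
    intro j hj
    set i' := max i₀ (Nat.sqrt j - 39) with hi'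
    have hsq : Nat.sqrt j ≤ 2 * q I := (Nat.sqrt_le_sqrt hj.le).trans (sqrt_B_le I)
    have hjlt : j < (Nat.sqrt j + 1) * (Nat.sqrt j + 1) := Nat.lt_succ_sqrt j
    have hjk : j ≤ k i' := by
      have h1 : Nat.sqrt j + 1 ≤ i' + 40 := by omega
      have h2 := Nat.mul_le_mul h1 h1
      rw [k_eq, sq]
      omega
    have hi'I : i' + 1 ≤ I := by
      have h1 : i' ≤ max i₀ (Nat.sqrt j) := by omega
      omega
    have hD : k i' - j ≤ Dm := by
      rcases le_total (Nat.sqrt j - 39) i₀ with h | h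
      · rw [hi', max_eq_left h]; omega
      · rcases Nat.lt_or_ge (Nat.sqrt j) 40 with h3 | h3
        · have h4 : i' = i₀ ∨ i' = 0 := by omega
          have h5 : i' ≤ i₀ := by omega
          have h6 := k_mono.monotone h5
          omega
        · rw [hi', max_eq_right h, k_eq]
          have h4 : Nat.sqrt j - 39 + 40 = Nat.sqrt j + 1 := by omega
          rw [h4]
          have h5 : Nat.sqrt j * Nat.sqrt j ≤ j := Nat.sqrt_le j
          have h6 : (Nat.sqrt j + 1) ^ 2 = Nat.sqrt j * Nat.sqrt j + 2 * Nat.sqrt j + 1 := by ring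
          omega
    have h7 : d.Z2 i' ≤ d.Z2 I :=
      (d.Z2_le_Y i').trans ((d.Y_mono hi'I).trans (d.Y_le_Z2 I))
    have h8 : d.Z2 I ≤ d.W (i' + 1) := (d.Z2_le_Y I).trans (d.Y_le_W _ _)
    have h9 := d.far_at hf (hi₀ i' (le_max_left _ _)) h7 h8 hjk
    refine h9.mono ?_
    apply div_le_div_of_nonneg_left (by positivity) (by positivity)
    exact pow_le_pow_right₀ hr1 hD
  -- each exponent
  have hterm : ∀ n ∈ Ico (m I) (k (I + 1)),
      ‖∑ U ∈ range (r ^ l I), e ((f : ℝ) * (r : ℝ) ^ n / (d.Z2 I + U / (r : ℝ) ^ m I))‖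
        ≤ (r : ℝ) ^ l I * (2 * Real.pi * (f * (r : ℝ) ^ k (I + 1) * (1 / (r : ℝ) ^ k I) ^ 2))
          + 8 * f * (r : ℝ) ^ Dm := by
    intro n hn
    rw [mem_Ico] at hn
    have h1 := avg_term (r ^ l I) (y := d.Z2 I) (A := f * (r : ℝ) ^ n) (u := 1 / (r : ℝ) ^ m I)
      (H := 1 / (r : ℝ) ^ k I) (ρ := 1 / (8 * f) / (r : ℝ) ^ Dm) hone (by positivity)
      (by positivity) (by
        push_cast
        rw [mul_one_div, div_le_div_iff₀ (by positivity) (by positivity), one_mul, ← pow_add]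
        apply pow_le_pow_right₀ hr1
        rw [m_eq]
        omega) (by positivity) (by
        have h2 := hfar (n - m I) (by unfold B; omega)
        have h3 : (f : ℝ) * (r : ℝ) ^ n * (1 / (r : ℝ) ^ m I) = f * (r : ℝ) ^ (n - m I) := by
          have : (r : ℝ) ^ n = (r : ℝ) ^ m I * (r : ℝ) ^ (n - m I) := by
            rw [← pow_add, Nat.add_sub_cancel' hn.1]
          rw [this]
          field_simp
        rw [h3]
        exact h2)
    have h4 : ∀ U : ℕ, (d.Z2 I + (U : ℝ) * (1 / (r : ℝ) ^ m I)) = d.Z2 I + U / (r : ℝ) ^ m I := by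
      intro U; ring
    simp only [h4] at h1
    refine h1.trans ?_
    push_cast
    apply add_le_add
    · apply mul_le_mul_of_nonneg_left _ (by positivity)
      apply mul_le_mul_of_nonneg_left _ (by positivity)
      apply mul_le_mul_of_nonneg_right _ (by positivity)
      apply mul_le_mul_of_nonneg_left _ (by positivity)
      exact pow_le_pow_right₀ hr1 hn.2.le
    · apply le_of_eq
      field_simp
  -- sum up
  have hf1 : f - 1 + 1 = f := by omega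
  unfold avgZ Z
  rw [hf1, sum_comm, norm_div, norm_pow, Complex.norm_natCast, div_le_iff₀ (by positivity)]
  refine (norm_sum_le _ _).trans ((sum_le_sum hterm).trans ?_)
  rw [sum_const, Nat.card_Ico, nsmul_eq_mul]
  change (B I : ℝ) * _ ≤ _
  have hL : (0 : ℝ) < (r : ℝ) ^ l I := by positivity
  have hB2 : (B I : ℝ) ≤ (r : ℝ) ^ (q I + 1) :=
    (B_le_two_pow I).trans (pow_le_pow_left₀ (by norm_num) hr2 _)
  have h2q : (0 : ℝ) < 2 ^ q I := by positivity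
  -- first part
  have hA : (B I : ℝ) * ((r : ℝ) ^ l I *
      (2 * Real.pi * (f * (r : ℝ) ^ k (I + 1) * (1 / (r : ℝ) ^ k I) ^ 2)))
      ≤ (2 * Real.pi * f * r) / 2 ^ q I * (r : ℝ) ^ l I := by
    have h1 : (r : ℝ) ^ k (I + 1) * (1 / (r : ℝ) ^ k I) ^ 2 ≤ 1 / (r : ℝ) ^ (3 * q I) := by
      rw [one_div, inv_pow, ← div_eq_mul_inv, ← pow_mul, div_le_div_iff₀ (by positivity)
        (by positivity), one_mul, ← pow_add]
      apply pow_le_pow_right₀ hr1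
      rw [k_succ]
      have h2 : k I = (I + 40) ^ 2 := k_eq I
      nlinarith
    have h3 : (B I : ℝ) * (1 / (r : ℝ) ^ (3 * q I)) ≤ r / 2 ^ q I := by
      calc (B I : ℝ) * (1 / (r : ℝ) ^ (3 * q I)) ≤ (r : ℝ) ^ (q I + 1) * (1 / (r : ℝ) ^ (3 * q I)) :=
            mul_le_mul_of_nonneg_right hB2 (by positivity)
        _ = r / (r : ℝ) ^ (2 * q I) := by
          have : (r : ℝ) ^ (3 * q I) = (r : ℝ) ^ q I * (r : ℝ) ^ (2 * q I) := by
            rw [← pow_add]; congr 1; ring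
          rw [this, pow_succ]
          field_simp
        _ ≤ r / 2 ^ q I := by
          apply div_le_div_of_nonneg_left hr.le h2q
          calc (2 : ℝ) ^ q I ≤ (r : ℝ) ^ q I := pow_le_pow_left₀ (by norm_num) hr2 _
            _ ≤ (r : ℝ) ^ (2 * q I) := pow_le_pow_right₀ hr1 (by omega)
    calc (B I : ℝ) * ((r : ℝ) ^ l I *
        (2 * Real.pi * (f * (r : ℝ) ^ k (I + 1) * (1 / (r : ℝ) ^ k I) ^ 2)))
        = (r : ℝ) ^ l I * (2 * Real.pi * f) *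
          ((B I : ℝ) * ((r : ℝ) ^ k (I + 1) * (1 / (r : ℝ) ^ k I) ^ 2)) := by ring
      _ ≤ (r : ℝ) ^ l I * (2 * Real.pi * f) * ((B I : ℝ) * (1 / (r : ℝ) ^ (3 * q I))) := by
        apply mul_le_mul_of_nonneg_left _ (by positivity)
        exact mul_le_mul_of_nonneg_left h1 (by positivity)
      _ ≤ (r : ℝ) ^ l I * (2 * Real.pi * f) * (r / 2 ^ q I) := by
        apply mul_le_mul_of_nonneg_left h3 (by positivity)
      _ = (2 * Real.pi * f * r) / 2 ^ q I * (r : ℝ) ^ l I := by ring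
  -- second part
  have hA2 : (B I : ℝ) * (8 * f * (r : ℝ) ^ Dm)
      ≤ (8 * f * (r : ℝ) ^ (k i₀ + 2)) / 2 ^ q I * (r : ℝ) ^ l I := by
    have h1 : (B I : ℝ) * (r : ℝ) ^ Dm * 2 ^ q I ≤ (r : ℝ) ^ (k i₀ + 2) * (r : ℝ) ^ l I := by
      calc (B I : ℝ) * (r : ℝ) ^ Dm * 2 ^ q I
          ≤ (r : ℝ) ^ (q I + 1) * (r : ℝ) ^ Dm * (r : ℝ) ^ q I := by
            apply mul_le_mul _ (pow_le_pow_left₀ (by norm_num) hr2 _) (by positivity)
              (by positivity)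
            exact mul_le_mul_of_nonneg_right hB2 (by positivity)
        _ = (r : ℝ) ^ (q I + 1 + Dm + q I) := by rw [pow_add _ (q I + 1 + Dm), pow_add _ (q I + 1)]
        _ ≤ (r : ℝ) ^ (k i₀ + 2 + l I) := by
          apply pow_le_pow_right₀ hr1
          rw [l_eq]
          omega
        _ = (r : ℝ) ^ (k i₀ + 2) * (r : ℝ) ^ l I := pow_add _ _ _
    rw [div_mul_eq_mul_div, le_div_iff₀ h2q]
    calc (B I : ℝ) * (8 * f * (r : ℝ) ^ Dm) * 2 ^ q I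
        = 8 * f * ((B I : ℝ) * (r : ℝ) ^ Dm * 2 ^ q I) := by ring
      _ ≤ 8 * f * ((r : ℝ) ^ (k i₀ + 2) * (r : ℝ) ^ l I) :=
        mul_le_mul_of_nonneg_left h1 (by positivity)
      _ = 8 * f * (r : ℝ) ^ (k i₀ + 2) * (r : ℝ) ^ l I := by ring
  rw [mul_add, add_div, add_mul]
  exact add_le_add hA hA2

lemma avg_eventually (f : ℕ) : ∀ᶠ I in atTop, ‖avgZ r I (d.Z2 I) f‖ ≤ 1 := by
  obtain ⟨C, I₀, hC, h⟩ := d.avg_bound (f + 1) (by omega)
  have h1 : Tendsto (fun I => C / 2 ^ q I) atTop (𝓝 0) := by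
    have h2 : Tendsto (fun n : ℕ => C * (1 / 2 : ℝ) ^ n) atTop (𝓝 (C * 0)) :=
      (tendsto_pow_atTop_nhds_zero_of_lt_one (by norm_num) (by norm_num)).const_mul C
    rw [mul_zero] at h2
    refine (h2.comp tendsto_q).congr fun I => ?_
    simp only [Function.comp, one_div, inv_pow]
    rw [div_eq_mul_inv]
  filter_upwards [eventually_ge_atTop I₀, h1.eventually (Iic_mem_nhds (show (0 : ℝ) < 1 by norm_num))]
    with I hI1 hI2
  have := h I hI1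
  rw [Nat.add_sub_cancel] at this
  exact this.trans hI2

lemma norm_T_le (i f : ℕ) : ‖d.T i f‖ ≤ k i := by
  induction i with
  | zero => rw [d.T0]; simp
  | succ i ih =>
    have h0 : d.T (i + 1) f = d.T i f + Z r i (d.Y (i + 1)) f := (d.hS i).2.2.2.2.1 f
    rw [h0]
    refine (norm_add_le _ _).trans ?_
    have h1 := norm_Z_le r i (d.Y (i + 1)) f
    have h2 : (k i : ℝ) + B i ≤ k (i + 1) := by
      have : k i + B i ≤ k (i + 1) := by
        unfold B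
        have := k_lt_m i
        have := m_lt i
        omega
      exact_mod_cast this
    linarith

lemma norm_avg_le (i f : ℕ) : ‖avgZ r i (d.Z2 i) f‖ ≤ B i := by
  have hr := d.r0
  unfold avgZ
  rw [norm_div, norm_pow, Complex.norm_natCast, div_le_iff₀ (by positivity)]
  refine (norm_sum_le _ _).trans ?_
  refine (sum_le_sum fun U _ => norm_Z_le r i _ f).trans ?_
  simp [mul_comm]

/-- the potential -/
noncomputable def Φ (i : ℕ) : ℝ := ∑ f ∈ range i, (1 / 2 : ℝ) ^ f * ‖d.T i f‖ ^ 2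

lemma geom_le (n : ℕ) : ∑ f ∈ range n, (1 / 2 : ℝ) ^ f ≤ 2 := by
  have := geom_sum_eq (show (1 / 2 : ℝ) ≠ 1 by norm_num) n
  rw [this]
  have : (0 : ℝ) < (1 / 2 : ℝ) ^ n := by positivity
  rw [div_le_iff_of_neg (by norm_num)]
  linarith

lemma weight_sum (F n : ℕ) (a : ℕ → ℝ) (b : ℝ) (hb : 0 ≤ b) (h1 : ∀ f, f < F → a f ≤ 1)
    (h2 : ∀ f, a f ≤ b) :
    ∑ f ∈ range n, (1 / 2 : ℝ) ^ f * a f ≤ 2 + 2 * (1 / 2) ^ F * b := by
  have h3 : ∀ f ∈ range n, (1 / 2 : ℝ) ^ f * a f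
      ≤ (1 / 2 : ℝ) ^ f * 1 + (if F ≤ f then (1 / 2 : ℝ) ^ f else 0) * b := by
    intro f _
    have hp : (0 : ℝ) < (1 / 2 : ℝ) ^ f := by positivity
    split_ifs with hF
    · have := mul_le_mul_of_nonneg_left (h2 f) hp.le
      linarith
    · have := mul_le_mul_of_nonneg_left (h1 f (by omega)) hp.le
      linarith
  refine (sum_le_sum h3).trans ?_
  rw [sum_add_distrib, ← sum_mul, ← sum_mul]
  have h4 := geom_le n
  have h5 : ∑ f ∈ range n, (if F ≤ f then (1 / 2 : ℝ) ^ f else 0) ≤ 2 * (1 / 2) ^ F := by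
    rw [← sum_filter]
    have h6 : (range n).filter (fun f => F ≤ f) = Ico F n := by
      ext x
      simp only [mem_filter, mem_range, mem_Ico]
      omega
    rw [h6]
    rcases Nat.lt_or_ge n F with h | h
    · rw [Ico_eq_empty (by omega)]
      simp
    · rw [sum_Ico_eq_sum_range]
      simp only [pow_add]
      rw [← mul_sum]
      have := geom_le (n - F)
      have hp : (0 : ℝ) < (1 / 2 : ℝ) ^ F := by positivity
      nlinarith
  have h7 := mul_le_mul_of_nonneg_right h5 hb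
  linarith

lemma Φ_step (i F : ℕ) (h : ∀ f, f < F → ‖avgZ r i (d.Z2 i) f‖ ≤ 1) :
    d.Φ (i + 1) - d.Φ i ≤ (1 / 2 : ℝ) ^ i * (k i : ℝ) ^ 2
      + 2 * k i * (2 + 2 * (1 / 2) ^ F * B i) + 2 * (B i : ℝ) ^ 2 := by
  have h1 : d.Φ (i + 1) ≤ ∑ f ∈ range (i + 1), (1 / 2 : ℝ) ^ f * (‖d.T i f‖ ^ 2
      + 2 * ‖d.T i f‖ * ‖avgZ r i (d.Z2 i) f‖ + (B i : ℝ) ^ 2) := (d.hS i).2.2.2.2.2
  have h2 : ∀ f ∈ range (i + 1), (1 / 2 : ℝ) ^ f * (‖d.T i f‖ ^ 2
      + 2 * ‖d.T i f‖ * ‖avgZ r i (d.Z2 i) f‖ + (B i : ℝ) ^ 2)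
      ≤ (1 / 2 : ℝ) ^ f * ‖d.T i f‖ ^ 2 + 2 * k i * ((1 / 2 : ℝ) ^ f * ‖avgZ r i (d.Z2 i) f‖)
        + (1 / 2 : ℝ) ^ f * (B i : ℝ) ^ 2 := by
    intro f _
    have h3 := d.norm_T_le i f
    have h4 : 0 ≤ ‖avgZ r i (d.Z2 i) f‖ := norm_nonneg _
    have hp : (0 : ℝ) < (1 / 2 : ℝ) ^ f := by positivity
    have h5 : ‖d.T i f‖ * ‖avgZ r i (d.Z2 i) f‖ ≤ k i * ‖avgZ r i (d.Z2 i) f‖ :=
      mul_le_mul_of_nonneg_right h3 h4
    have h6 := mul_le_mul_of_nonneg_left h5 hp.le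
    nlinarith
  have h7 := h1.trans (sum_le_sum h2)
  rw [sum_add_distrib, sum_add_distrib, ← mul_sum, ← sum_mul, sum_range_succ] at h7
  have h8 : ∑ f ∈ range i, (1 / 2 : ℝ) ^ f * ‖d.T i f‖ ^ 2 = d.Φ i := rfl
  rw [h8] at h7
  have h9 := weight_sum F (i + 1) (fun f => ‖avgZ r i (d.Z2 i) f‖) (B i) (by positivity) h
    (fun f => d.norm_avg_le i f)
  have h10 := geom_le (i + 1)
  have h11 : (1 / 2 : ℝ) ^ i * ‖d.T i i‖ ^ 2 ≤ (1 / 2 : ℝ) ^ i * (k i : ℝ) ^ 2 := by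
    apply mul_le_mul_of_nonneg_left _ (by positivity)
    exact pow_le_pow_left₀ (norm_nonneg _) (d.norm_T_le i i) 2
  have h12 : 2 * (k i : ℝ) * ∑ f ∈ range (i + 1), (1 / 2 : ℝ) ^ f * ‖avgZ r i (d.Z2 i) f‖
      ≤ 2 * k i * (2 + 2 * (1 / 2) ^ F * B i) := mul_le_mul_of_nonneg_left h9 (by positivity)
  have h13 : (∑ f ∈ range (i + 1), (1 / 2 : ℝ) ^ f) * (B i : ℝ) ^ 2 ≤ 2 * (B i : ℝ) ^ 2 :=
    mul_le_mul_of_nonneg_right h10 (by positivity)
  linarith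

lemma Φ_small (ε : ℝ) (hε : 0 < ε) : ∀ᶠ i in atTop, d.Φ i ≤ ε * (k i : ℝ) ^ 2 := by
  refine stolz (K := fun i => (k i : ℝ) ^ 2) ?_ ?_ ε hε
  · have h := tendsto_k
    exact (tendsto_pow_atTop (by norm_num)).comp h
  intro ε hε
  -- choose F
  obtain ⟨F, hF⟩ := exists_pow_lt_of_lt_one (show 0 < ε / 12 by positivity)
    (show (1 / 2 : ℝ) < 1 by norm_num)
  have hav : ∀ᶠ i in atTop, ∀ f ∈ range F, ‖avgZ r i (d.Z2 i) f‖ ≤ 1 := by
    rw [Filter.eventually_all_finset]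
    intro f _
    exact d.avg_eventually f
  have hN : Tendsto (fun i : ℕ => ((i : ℝ) + 40)) atTop atTop :=
    tendsto_atTop_add_const_right _ _ tendsto_natCast_atTop_atTop
  have hc1 : ∀ᶠ i : ℕ in atTop, 44 / ε ≤ (i : ℝ) + 40 := hN.eventually_ge_atTop _
  have hc2 : ∀ᶠ i : ℕ in atTop, (1 / 2 : ℝ) ^ i * ((i : ℝ) + 40) ≤ ε := by
    have h1 : Tendsto (fun i : ℕ => (i : ℝ) * (1 / 2 : ℝ) ^ i) atTop (𝓝 0) := by
      exact tendsto_self_mul_const_pow_of_lt_one (by norm_num) (by norm_num)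
    have h2 : Tendsto (fun i : ℕ => (1 / 2 : ℝ) ^ i) atTop (𝓝 0) :=
      tendsto_pow_atTop_nhds_zero_of_lt_one (by norm_num) (by norm_num)
    have h3 : Tendsto (fun i : ℕ => (i : ℝ) * (1 / 2 : ℝ) ^ i + 40 * (1 / 2 : ℝ) ^ i) atTop
        (𝓝 (0 + 40 * 0)) := h1.add (h2.const_mul 40)
    rw [mul_zero, add_zero] at h3
    filter_upwards [h3.eventually (Iic_mem_nhds hε)] with i hi
    linarith
  filter_upwards [hav, hc1, hc2] with i h1 h2 h3
  have h4 := d.Φ_step i F (fun f hf => h1 f (mem_range.2 hf))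
  refine h4.trans ?_
  have hk : (k i : ℝ) = ((i : ℝ) + 40) ^ 2 := by rw [k_eq]; push_cast; ring
  have hk1 : (k (i + 1) : ℝ) = ((i : ℝ) + 41) ^ 2 := by rw [k_eq]; push_cast; ring
  have hB : (B i : ℝ) ≤ 3 * ((i : ℝ) + 40) := by
    have : B i ≤ 3 * (i + 40) := (B_le i).trans (by omega)
    exact_mod_cast this
  have hB0 : (0 : ℝ) ≤ B i := by positivity
  rw [hk, hk1]
  set N : ℝ := (i : ℝ) + 40 with hNdef
  have hN40 : (40 : ℝ) ≤ N := by
    rw [hNdef]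
    have : (0 : ℝ) ≤ i := Nat.cast_nonneg i
    linarith
  have hN1 : (i : ℝ) + 41 = N + 1 := by rw [hNdef]; ring
  rw [hN1]
  have hN0 : 0 < N := by linarith
  set H : ℝ := (1 / 2 : ℝ) ^ F with hH
  have hH0 : 0 < H := by positivity
  set G : ℝ := (1 / 2 : ℝ) ^ i with hG
  have hG0 : 0 < G := by positivity
  -- the four pieces
  have p1 : G * (N ^ 2) ^ 2 ≤ ε * N ^ 3 := by
    calc G * (N ^ 2) ^ 2 = (G * N) * N ^ 3 := by ring
      _ ≤ ε * N ^ 3 := mul_le_mul_of_nonneg_right h3 (by positivity)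
  have p2 : 2 * N ^ 2 * (2 + 2 * H * B i) ≤ 4 * N ^ 2 + ε * N ^ 3 := by
    have h5 : H * B i ≤ ε / 12 * (3 * N) := mul_le_mul hF.le hB hB0 (by positivity)
    have h6 : 4 * N ^ 2 * (H * B i) ≤ 4 * N ^ 2 * (ε / 12 * (3 * N)) :=
      mul_le_mul_of_nonneg_left h5 (by positivity)
    calc 2 * N ^ 2 * (2 + 2 * H * B i) = 4 * N ^ 2 + 4 * N ^ 2 * (H * B i) := by ring
      _ ≤ 4 * N ^ 2 + 4 * N ^ 2 * (ε / 12 * (3 * N)) := by linarith
      _ = 4 * N ^ 2 + ε * N ^ 3 := by ring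
  have p3 : 2 * (B i : ℝ) ^ 2 ≤ 18 * N ^ 2 := by
    have := pow_le_pow_left₀ hB0 hB 2
    calc 2 * (B i : ℝ) ^ 2 ≤ 2 * (3 * N) ^ 2 := by linarith
      _ = 18 * N ^ 2 := by ring
  have p4 : 22 * N ^ 2 ≤ ε / 2 * N ^ 3 := by
    rw [div_le_iff₀ hε] at h2
    have h5 : 44 ≤ ε * N := by linarith
    have h6 : N ^ 2 * 44 ≤ N ^ 2 * (ε * N) := mul_le_mul_of_nonneg_left h5 (by positivity)
    nlinarith
  have p5 : 4 * N ^ 3 ≤ ((N + 1) ^ 2) ^ 2 - (N ^ 2) ^ 2 := by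
    nlinarith [sq_nonneg N, pow_pos hN0 3]
  have p6 : ε * (4 * N ^ 3) ≤ ε * (((N + 1) ^ 2) ^ 2 - (N ^ 2) ^ 2) :=
    mul_le_mul_of_nonneg_left p5 hε.le
  have p7 : 0 < ε * N ^ 3 := by positivity
  nlinarith

/-- the exponential sums along the construction are small -/
lemma T_small (f : ℕ) (ε : ℝ) (hε : 0 < ε) : ∀ᶠ i in atTop, ‖d.T i f‖ ≤ ε * k i := by
  have h1 := d.Φ_small ((1 / 2) ^ f * ε ^ 2) (by positivity)
  filter_upwards [h1, eventually_gt_atTop f] with i h2 h3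
  have h4 : (1 / 2 : ℝ) ^ f * ‖d.T i f‖ ^ 2 ≤ d.Φ i :=
    single_le_sum (f := fun f => (1 / 2 : ℝ) ^ f * ‖d.T i f‖ ^ 2) (fun f _ => by positivity)
      (mem_range.2 h3)
  have h5 : (1 / 2 : ℝ) ^ f * ‖d.T i f‖ ^ 2 ≤ (1 / 2 : ℝ) ^ f * (ε * k i) ^ 2 := by
    calc (1 / 2 : ℝ) ^ f * ‖d.T i f‖ ^ 2 ≤ (1 / 2) ^ f * ε ^ 2 * (k i : ℝ) ^ 2 := h4.trans h2
      _ = (1 / 2 : ℝ) ^ f * (ε * k i) ^ 2 := by ring
  have h6 := le_of_mul_le_mul_left h5 (by positivity)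
  exact abs_le_of_sq_le_sq' h6 (by positivity) |>.2

/-- the exponential sum of `F r ^ n / y` -/
noncomputable def S (F N : ℕ) : ℂ := ∑ n ∈ range N, e ((F : ℝ) * (r : ℝ) ^ n / d.y)

include d in
lemma geom_r (n : ℕ) : (∑ j ∈ range n, (r : ℝ) ^ j) * (1 / (r : ℝ) ^ n) ≤ 1 := by
  have h := d.r2
  have h0 := d.r0
  rw [geom_sum_eq (by linarith)]
  rw [mul_one_div, div_le_one (by positivity), div_le_iff₀ (by linarith)]
  have : (1 : ℝ) ≤ (r : ℝ) ^ n := one_le_pow₀ (by linarith)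
  nlinarith

lemma Y_near (i : ℕ) : |1 / d.y - 1 / d.Y i| ≤ 1 / (r : ℝ) ^ k i := by
  have hr := d.r0
  have h1 := d.Y_le_y i
  have h2 := d.y_le_W i
  have h3 := d.one_le_Y i
  have h4 := d.one_le_y
  unfold W at h2
  have h5 : 1 / d.y - 1 / d.Y i = -((d.y - d.Y i) / (d.y * d.Y i)) := by
    have : d.y ≠ 0 := by linarith
    have : d.Y i ≠ 0 := by linarith
    field_simp
    ring
  rw [h5, abs_neg, abs_of_nonneg (div_nonneg (by linarith) (by positivity))]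
  refine (div_le_self (by linarith) (by nlinarith)).trans (by linarith)

lemma S_diff (f i : ℕ) : ‖d.S (f + 1) (k i) - d.T i f‖ ≤ k 0 +
    ∑ j ∈ range i, (11 * (q j : ℝ) + 2 * Real.pi * (f + 1)) := by
  have hr := d.r0
  have hpi := Real.pi_pos
  induction i with
  | zero =>
    rw [d.T0]
    simp only [sub_zero, range_zero, sum_empty, add_zero]
    unfold S
    refine (norm_sum_le _ _).trans ?_
    simp [norm_e]
  | succ i ih =>
    have h0 : d.T (i + 1) f = d.T i f + Z r i (d.Y (i + 1)) f := (d.hS i).2.2.2.2.1 f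
    have hkm := (k_lt_m i).le
    have hmk := (m_lt i).le
    have h1 : d.S (f + 1) (k (i + 1)) = d.S (f + 1) (k i)
        + ∑ n ∈ Ico (k i) (m i), e (((f + 1 : ℕ) : ℝ) * (r : ℝ) ^ n / d.y)
        + ∑ n ∈ Ico (m i) (k (i + 1)), e (((f + 1 : ℕ) : ℝ) * (r : ℝ) ^ n / d.y) := by
      unfold S
      rw [add_assoc, sum_Ico_consecutive _ hkm hmk, sum_range_add_sum_Ico _ (hkm.trans hmk)]
    rw [h0, h1, sum_range_succ]
    have h2 : d.S (f + 1) (k i)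
        + ∑ n ∈ Ico (k i) (m i), e (((f + 1 : ℕ) : ℝ) * (r : ℝ) ^ n / d.y)
        + ∑ n ∈ Ico (m i) (k (i + 1)), e (((f + 1 : ℕ) : ℝ) * (r : ℝ) ^ n / d.y)
        - (d.T i f + Z r i (d.Y (i + 1)) f)
        = (d.S (f + 1) (k i) - d.T i f)
        + (∑ n ∈ Ico (k i) (m i), e (((f + 1 : ℕ) : ℝ) * (r : ℝ) ^ n / d.y)
        + ∑ n ∈ Ico (m i) (k (i + 1)), (e (((f + 1 : ℕ) : ℝ) * (r : ℝ) ^ n / d.y)
          - e (((f + 1 : ℕ) : ℝ) * (r : ℝ) ^ n / d.Y (i + 1)))) := by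
      rw [sum_sub_distrib]
      unfold Z
      ring
    rw [h2]
    suffices hB : ‖∑ n ∈ Ico (k i) (m i), e (((f + 1 : ℕ) : ℝ) * (r : ℝ) ^ n / d.y)
        + ∑ n ∈ Ico (m i) (k (i + 1)), (e (((f + 1 : ℕ) : ℝ) * (r : ℝ) ^ n / d.y)
          - e (((f + 1 : ℕ) : ℝ) * (r : ℝ) ^ n / d.Y (i + 1)))‖
        ≤ 11 * (q i : ℝ) + 2 * Real.pi * (f + 1) by
      refine (norm_add_le _ _).trans ?_
      linarith
    refine (norm_add_le _ _).trans (add_le_add ?_ ?_)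
    · refine (norm_sum_le _ _).trans ?_
      simp only [norm_e, sum_const, Nat.card_Ico, nsmul_eq_mul, mul_one]
      have : m i - k i = 11 * q i := by
        have := m_eq i
        rw [s_eq, l_eq] at this
        omega
      rw [this]
      push_cast
      exact le_refl _
    · refine (norm_sum_le _ _).trans ?_
      have h3 : ∀ n ∈ Ico (m i) (k (i + 1)), ‖e (((f + 1 : ℕ) : ℝ) * (r : ℝ) ^ n / d.y)
          - e (((f + 1 : ℕ) : ℝ) * (r : ℝ) ^ n / d.Y (i + 1))‖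
          ≤ 2 * Real.pi * (f + 1) * (1 / (r : ℝ) ^ k (i + 1)) * (r : ℝ) ^ n := by
        intro n _
        refine (norm_e_sub_e_le _ _).trans ?_
        have h4 : ((f + 1 : ℕ) : ℝ) * (r : ℝ) ^ n / d.y
            - ((f + 1 : ℕ) : ℝ) * (r : ℝ) ^ n / d.Y (i + 1)
            = ((f + 1 : ℕ) : ℝ) * (r : ℝ) ^ n * (1 / d.y - 1 / d.Y (i + 1)) := by ring
        rw [h4, abs_mul, abs_of_nonneg (by positivity : (0 : ℝ) ≤ ((f + 1 : ℕ) : ℝ) * (r : ℝ) ^ n)]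
        have h5 := d.Y_near (i + 1)
        have h6 := mul_le_mul_of_nonneg_left h5
          (by positivity : (0 : ℝ) ≤ 2 * Real.pi * (((f + 1 : ℕ) : ℝ) * (r : ℝ) ^ n))
        push_cast at h6 ⊢
        calc 2 * Real.pi * ((f + 1 : ℝ) * (r : ℝ) ^ n * |1 / d.y - 1 / d.Y (i + 1)|)
            = 2 * Real.pi * ((f + 1 : ℝ) * (r : ℝ) ^ n) * |1 / d.y - 1 / d.Y (i + 1)| := by ring
          _ ≤ _ := h6
          _ = _ := by ring
      refine (sum_le_sum h3).trans ?_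
      rw [← mul_sum]
      have h7 : ∑ n ∈ Ico (m i) (k (i + 1)), (r : ℝ) ^ n ≤ ∑ n ∈ range (k (i + 1)), (r : ℝ) ^ n := by
        apply sum_le_sum_of_subset_of_nonneg
        · intro x hx
          rw [mem_Ico] at hx
          exact mem_range.2 hx.2
        · intro _ _ _; positivity
      have h8 := d.geom_r (k (i + 1))
      have h9 : (0 : ℝ) < 1 / (r : ℝ) ^ k (i + 1) := by positivity
      calc 2 * Real.pi * (f + 1) * (1 / (r : ℝ) ^ k (i + 1)) * ∑ n ∈ Ico (m i) (k (i + 1)), (r : ℝ) ^ n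
          ≤ 2 * Real.pi * (f + 1) * (1 / (r : ℝ) ^ k (i + 1)) * ∑ n ∈ range (k (i + 1)), (r : ℝ) ^ n :=
            mul_le_mul_of_nonneg_left h7 (by positivity)
        _ = 2 * Real.pi * (f + 1) * ((∑ n ∈ range (k (i + 1)), (r : ℝ) ^ n) * (1 / (r : ℝ) ^ k (i + 1))) := by
          ring
        _ ≤ 2 * Real.pi * (f + 1) * 1 := mul_le_mul_of_nonneg_left h8 (by positivity)
        _ = 2 * Real.pi * (f + 1) := by ring

lemma err_small (c : ℝ) (ε : ℝ) (hε : 0 < ε) : ∀ᶠ i in atTop,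
    (k 0 : ℝ) + ∑ j ∈ range i, (11 * (q j : ℝ) + c) ≤ ε * k i := by
  refine stolz (K := fun i => (k i : ℝ)) tendsto_k ?_ ε hε
  intro ε hε
  have h1 : ∀ᶠ i in atTop, 11 / ε ≤ (q i : ℝ) :=
    (tendsto_natCast_atTop_atTop.comp tendsto_q).eventually_ge_atTop _
  have h2 : ∀ᶠ i : ℕ in atTop, c / ε ≤ (i : ℝ) :=
    tendsto_natCast_atTop_atTop.eventually_ge_atTop _
  filter_upwards [h1, h2] with i h3 h4
  rw [sum_range_succ]
  have h5 : (q i : ℝ) * q i ≤ i + 40 := by exact_mod_cast q_sq_le i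
  have h6 : (k (i + 1) : ℝ) = k i + 2 * (i + 40) + 1 := by exact_mod_cast k_succ i
  rw [h6]
  rw [div_le_iff₀ hε] at h3 h4
  have hq : (0 : ℝ) ≤ q i := Nat.cast_nonneg _
  have h7 : 11 * (q i : ℝ) ≤ ε * (q i * q i) := by nlinarith
  have h8 : ε * ((q i : ℝ) * q i) ≤ ε * (i + 40) := mul_le_mul_of_nonneg_left h5 hε.le
  nlinarith

lemma S_small (f : ℕ) : Tendsto (fun N : ℕ => d.S (f + 1) N / (N : ℂ)) atTop (𝓝 0) := by
  rw [tendsto_zero_iff_norm_tendsto_zero, Metric.tendsto_atTop]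
  intro ε hε
  have h1 := d.T_small f (ε / 4) (by positivity)
  have h2 := err_small (2 * Real.pi * (f + 1)) (ε / 4) (by positivity)
  obtain ⟨I, hI⟩ := eventually_atTop.1 (h1.and h2)
  obtain ⟨M, hM⟩ := exists_nat_gt (12 / ε)
  refine ⟨(I + 40 + M) * (I + 40 + M), fun N hN => ?_⟩
  have hs1 : I + 40 + M ≤ Nat.sqrt N := Nat.le_sqrt.2 hN
  set i := Nat.sqrt N - 40 with hi
  have hi40 : i + 40 = Nat.sqrt N := by omega
  have hki : k i = Nat.sqrt N * Nat.sqrt N := by rw [k_eq, hi40, sq]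
  have hki1 : k i ≤ N := by rw [hki]; exact Nat.sqrt_le N
  have hki2 : N < k (i + 1) := by
    rw [k_succ, hki, hi40]
    have := Nat.lt_succ_sqrt N
    nlinarith
  obtain ⟨h3, h4⟩ := hI i (by omega)
  have h5 := d.S_diff f i
  have h6 : d.S (f + 1) N = d.S (f + 1) (k i)
      + ∑ n ∈ Ico (k i) N, e (((f + 1 : ℕ) : ℝ) * (r : ℝ) ^ n / d.y) := by
    unfold S
    rw [sum_range_add_sum_Ico _ hki1]
  have h7 : ‖∑ n ∈ Ico (k i) N, e (((f + 1 : ℕ) : ℝ) * (r : ℝ) ^ n / d.y)‖ ≤ 2 * (Nat.sqrt N : ℝ) + 1 := by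
    refine (norm_sum_le _ _).trans ?_
    simp only [norm_e, sum_const, Nat.card_Ico, nsmul_eq_mul, mul_one]
    have : N - k i ≤ 2 * Nat.sqrt N + 1 := by
      rw [k_succ, hi40] at hki2
      omega
    exact_mod_cast this
  have hN0 : (0 : ℝ) < N := by
    have : 0 < N := by
      have h8 : 0 < (I + 40 + M) * (I + 40 + M) := by positivity
      omega
    exact_mod_cast this
  have hsq0 : (0 : ℝ) < Nat.sqrt N := by
    have : 0 < Nat.sqrt N := by omega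
    exact_mod_cast this
  have hsqN : (Nat.sqrt N : ℝ) * Nat.sqrt N ≤ N := by exact_mod_cast Nat.sqrt_le N
  have h8 : 2 * (Nat.sqrt N : ℝ) + 1 ≤ ε / 4 * N := by
    have h9 : (M : ℝ) ≤ Nat.sqrt N := by
      have : M ≤ Nat.sqrt N := by omega
      exact_mod_cast this
    have h10 : 12 ≤ ε * Nat.sqrt N := by
      rw [div_lt_iff₀ hε] at hM
      nlinarith
    have h11 : (1 : ℝ) ≤ Nat.sqrt N := by
      have : 1 ≤ Nat.sqrt N := by omega
      exact_mod_cast this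
    nlinarith
  have h9 : ‖d.S (f + 1) (k i)‖ ≤ ε / 4 * k i + ε / 4 * k i := by
    have h10 : d.S (f + 1) (k i) = d.T i f + (d.S (f + 1) (k i) - d.T i f) := by ring
    rw [h10]
    exact (norm_add_le _ _).trans (add_le_add h3 (h5.trans h4))
  have h10 : (k i : ℝ) ≤ N := by exact_mod_cast hki1
  have h11 : ‖d.S (f + 1) N‖ ≤ 3 * ε / 4 * N := by
    rw [h6]
    refine (norm_add_le _ _).trans ?_
    have : ε / 4 * (k i : ℝ) ≤ ε / 4 * N := mul_le_mul_of_nonneg_left h10 (by positivity)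
    linarith
  rw [Real.dist_eq, sub_zero, abs_of_nonneg (norm_nonneg _), norm_div, Complex.norm_natCast,
    div_lt_iff₀ hN0]
  have : 0 < ε * N := by positivity
  nlinarith

end Dat

end Pool.Agent.Run7.h792.RN
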