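import Mathlib
import Pool.Agent.H84R3.WeylCrit
import Pool.Agent.Run7.h792.RN.Anal

/-!
Digits: equidistribution of `r ^ n x` gives block frequencies; the digits of `y` are mostly zero.
-/

set_option autoImplicit false

namespace Pool.Agent.Run7.h792.RN

open Finset Filter Topology Pool.Agent.H520R3

/-- the integer with the base `r` digits `w 0, w 1, …, w (k - 1)` -/
def Wd (r : ℕ) (w : ℕ → ℕ) : ℕ → ℕ
  | 0 => 0
  | k + 1 => r * Wd r w k + w k

lemma Wd_succ (r : ℕ) (w : ℕ → ℕ) (k : ℕ) : Wd r w (k + 1) = r * Wd r w k + w k := rfl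

lemma Wd_lt {r : ℕ} {w : ℕ → ℕ} (hr : 0 < r) (hw : ∀ j, w j < r) (k : ℕ) : Wd r w k < r ^ k := by
  induction k with
  | zero => simp [Wd]
  | succ k ih =>
    rw [Wd_succ]
    have h1 := hw k
    have h2 : r * (Wd r w k + 1) ≤ r * r ^ k := Nat.mul_le_mul_left _ ih
    rw [pow_succ]
    nlinarith

lemma floor_mul (r : ℕ) (s : ℝ) :
    ⌊(r : ℝ) * s⌋ = r * ⌊s⌋ + ⌊(r : ℝ) * Int.fract s⌋ := by
  have h : (r : ℝ) * s = r * Int.fract s + ((r * ⌊s⌋ : ℤ) : ℝ) := by
    push_cast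
    rw [← mul_add, Int.fract_add_floor]
  rw [h, Int.floor_add_intCast]
  ring

lemma floor_mul_fract_mem (r : ℕ) (hr : 0 < r) (s : ℝ) :
    0 ≤ ⌊(r : ℝ) * Int.fract s⌋ ∧ ⌊(r : ℝ) * Int.fract s⌋ < r := by
  have h1 := Int.fract_nonneg s
  have h2 := Int.fract_lt_one s
  have hr' : (0 : ℝ) < r := by exact_mod_cast hr
  constructor
  · exact Int.floor_nonneg.2 (by positivity)
  · rw [Int.floor_lt]
    push_cast
    nlinarith

/-- blocks of digits and the fractional part -/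
lemma block_iff {r : ℕ} (hr : 0 < r) {w : ℕ → ℕ} (hw : ∀ j, w j < r) (t : ℝ) (k : ℕ) :
    (∀ j < k, ⌊t * (r : ℝ) ^ (j + 1)⌋ % (r : ℤ) = (w j : ℤ)) ↔
      ⌊Int.fract t * (r : ℝ) ^ k⌋ = (Wd r w k : ℤ) := by
  induction k with
  | zero =>
    simp [Wd, Int.floor_fract]
  | succ k ih =>
    have h1 : (∀ j < k + 1, ⌊t * (r : ℝ) ^ (j + 1)⌋ % (r : ℤ) = (w j : ℤ)) ↔
        (∀ j < k, ⌊t * (r : ℝ) ^ (j + 1)⌋ % (r : ℤ) = (w j : ℤ)) ∧
          ⌊t * (r : ℝ) ^ (k + 1)⌋ % (r : ℤ) = (w k : ℤ) := by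
      constructor
      · intro h
        exact ⟨fun j hj => h j (by omega), h k (by omega)⟩
      · rintro ⟨h, h'⟩ j hj
        rcases Nat.lt_succ_iff_lt_or_eq.1 hj with h2 | h2
        · exact h j h2
        · rw [h2]; exact h'
    rw [h1, ih]
    -- reduce to the fractional part
    have h2 : t * (r : ℝ) ^ (k + 1) = Int.fract t * (r : ℝ) ^ (k + 1)
        + ((⌊t⌋ * (r : ℤ) ^ (k + 1) : ℤ) : ℝ) := by
      push_cast
      rw [← add_mul, Int.fract_add_floor]
    have h3 : ⌊t * (r : ℝ) ^ (k + 1)⌋ % (r : ℤ) = ⌊Int.fract t * (r : ℝ) ^ (k + 1)⌋ % (r : ℤ) := by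
      rw [h2, Int.floor_add_intCast, pow_succ (r : ℤ) k, ← mul_assoc (⌊t⌋), Int.add_mul_emod_self_right]
    rw [h3]
    have h4 : Int.fract t * (r : ℝ) ^ (k + 1) = r * (Int.fract t * (r : ℝ) ^ k) := by ring
    rw [h4, floor_mul r]
    obtain ⟨h5, h6⟩ := floor_mul_fract_mem r hr (Int.fract t * (r : ℝ) ^ k)
    set a := ⌊Int.fract t * (r : ℝ) ^ k⌋
    set b := ⌊(r : ℝ) * Int.fract (Int.fract t * (r : ℝ) ^ k)⌋
    have h7 : (r * a + b) % (r : ℤ) = b := by
      rw [add_comm, Int.add_mul_emod_self_left]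
      exact Int.emod_eq_of_lt h5 h6
    rw [h7, Wd_succ]
    push_cast
    have hwk : (w k : ℤ) < r := by exact_mod_cast hw k
    have hwk0 : (0 : ℤ) ≤ w k := by positivity
    have hr' : (0 : ℤ) < r := by exact_mod_cast hr
    constructor
    · rintro ⟨h8, h9⟩
      rw [h8, h9]
    · intro h8
      have h9 : (r * a + b) % (r : ℤ) = (r * (Wd r w k : ℤ) + w k) % (r : ℤ) := by rw [h8]
      rw [h7, add_comm, Int.add_mul_emod_self_left, Int.emod_eq_of_lt hwk0 hwk] at h9
      refine ⟨?_, h9⟩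
      rw [h9] at h8
      have h10 : (r : ℤ) * a = r * (Wd r w k : ℤ) := by linarith
      exact mul_left_cancel₀ hr'.ne' h10

/-- extension of a block by zeros -/
def ext {r k : ℕ} (w : Fin k → Fin r) (j : ℕ) : ℕ := if h : j < k then (w ⟨j, h⟩ : ℕ) else 0

lemma ext_lt {r k : ℕ} (hr : 0 < r) (w : Fin k → Fin r) (j : ℕ) : ext w j < r := by
  unfold ext
  split_ifs
  · exact (w _).2
  · exact hr

lemma block_interval {r : ℕ} (hr : 0 < r) {k : ℕ} (w : Fin k → Fin r) (x : ℝ) (i : ℕ) :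
    (∀ j : Fin k, ⌊x * (r : ℝ) ^ (i + (j : ℕ) + 1)⌋ % (r : ℤ) = ((w j : ℕ) : ℤ)) ↔
      (Wd r (ext w) k : ℝ) / (r : ℝ) ^ k ≤ Int.fract (x * (r : ℝ) ^ i) ∧
        Int.fract (x * (r : ℝ) ^ i) < (Wd r (ext w) k + 1 : ℝ) / (r : ℝ) ^ k := by
  have h1 := block_iff hr (ext_lt hr w) (x * (r : ℝ) ^ i) k
  have h2 : (∀ j : Fin k, ⌊x * (r : ℝ) ^ (i + (j : ℕ) + 1)⌋ % (r : ℤ) = ((w j : ℕ) : ℤ)) ↔
      (∀ j < k, ⌊x * (r : ℝ) ^ i * (r : ℝ) ^ (j + 1)⌋ % (r : ℤ) = (ext w j : ℤ)) := by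
    constructor
    · intro h j hj
      have := h ⟨j, hj⟩
      simp only at this
      rw [mul_assoc, ← pow_add, ← add_assoc, this]
      unfold ext
      rw [dif_pos hj]
    · rintro h ⟨j, hj⟩
      have := h j hj
      rw [mul_assoc, ← pow_add, ← add_assoc] at this
      simp only
      rw [this]
      unfold ext
      rw [dif_pos hj]
  have hr' : (0 : ℝ) < (r : ℝ) ^ k := by positivity
  rw [h2, h1, Int.floor_eq_iff, div_le_iff₀ hr', lt_div_iff₀ hr']
  push_cast
  rfl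

open Classical in
/-- uniform distribution of `x r ^ n` gives the block frequencies -/
theorem normal_of_ud {r : ℕ} (hr : 2 ≤ r) (x : ℝ)
    (h : Pool.Agent.H84R3.UD (fun n => x * (r : ℝ) ^ n)) (k : ℕ) (w : Fin k → Fin r) :
    Tendsto (fun N : ℕ =>
        ((((Finset.range N).filter
            (fun i => ∀ j : Fin k,
              ⌊x * (r : ℝ) ^ (i + (j : ℕ) + 1)⌋ % (r : ℤ) = ((w j : ℕ) : ℤ))).card : ℝ)
          / (N : ℝ))) atTop (𝓝 (1 / (r : ℝ) ^ k)) := by
  have hr0 : 0 < r := by omega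
  have hr' : (0 : ℝ) < (r : ℝ) ^ k := by positivity
  have h1 := h ((Wd r (ext w) k : ℝ) / (r : ℝ) ^ k) ((Wd r (ext w) k + 1 : ℝ) / (r : ℝ) ^ k)
    (by positivity) (by apply div_le_div_of_nonneg_right _ hr'.le; linarith) (by
      rw [div_le_one hr']
      exact_mod_cast Wd_lt hr0 (ext_lt hr0 w) k)
  have h2 : (Wd r (ext w) k + 1 : ℝ) / (r : ℝ) ^ k - (Wd r (ext w) k : ℝ) / (r : ℝ) ^ k
      = 1 / (r : ℝ) ^ k := by
    rw [← sub_div]; congr 1; ring
  rw [h2] at h1
  refine h1.congr fun N => ?_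
  congr 3
  apply Finset.filter_congr
  intro i _
  exact (block_interval hr0 w x i).symm

open Classical in
/-- entropies of the blocks of a normal number -/
theorem entropy_tendsto {r : ℕ} (hr : 2 ≤ r) {k : ℕ} (c : (Fin k → Fin r) → ℕ → ℝ)
    (h : ∀ w, Tendsto (c w) atTop (𝓝 (1 / (r : ℝ) ^ k))) :
    Tendsto (fun N => ∑ w : Fin k → Fin r, Real.negMulLog (c w N)) atTop
      (𝓝 (k * Real.log r)) := by
  have h1 : Tendsto (fun N => ∑ w : Fin k → Fin r, Real.negMulLog (c w N)) atTop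
      (𝓝 (∑ _w : Fin k → Fin r, Real.negMulLog (1 / (r : ℝ) ^ k))) := by
    apply tendsto_finsetSum
    intro w _
    exact (Real.continuous_negMulLog.tendsto _).comp (h w)
  have h2 : ∑ _w : Fin k → Fin r, Real.negMulLog (1 / (r : ℝ) ^ k) = k * Real.log r := by
    have hr' : (0 : ℝ) < (r : ℝ) ^ k := by positivity
    rw [Finset.sum_const, Finset.card_univ, Fintype.card_fun, Fintype.card_fin, Fintype.card_fin,
      nsmul_eq_mul, Real.negMulLog, one_div, Real.log_inv, Real.log_pow]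
    push_cast
    field_simp
  rw [h2] at h1
  exact h1

namespace Dat

variable {r : ℕ} (d : Dat r)

lemma ud_inv : Pool.Agent.H84R3.UD (fun n => d.y⁻¹ * (r : ℝ) ^ n) := by
  apply Pool.Agent.H84R3.ud_of_weyl
  intro k hk
  have h := d.S_small (k - 1)
  refine h.congr fun N => ?_
  unfold S Pool.Agent.H84R3.A
  congr 1
  apply Finset.sum_congr rfl
  intro n _
  unfold Pool.Agent.H84R3.ex e
  rw [mul_comm Complex.I]
  congr 2
  have : k - 1 + 1 = k := by omega
  rw [this]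
  congr 2
  rw [div_eq_mul_inv]
  ring

/-- digits outside the blocks vanish -/
lemma digit_zero (t p : ℕ) (h1 : m t < p) (h2 : p ≤ k (t + 1)) :
    ⌊d.y * (r : ℝ) ^ p⌋ % (r : ℤ) = 0 := by
  have hr := d.r0
  obtain ⟨-, -, A, hA⟩ := d.hP t
  have hA' : d.Y t * (r : ℝ) ^ k t = A := hA
  have h3 := d.Y_succ t
  unfold Z2 at h3
  set A' : ℕ := A * r ^ (s t + l t) + d.V t * r ^ l t + d.U t with hA'def
  have h4 : d.Y (t + 1) * (r : ℝ) ^ m t = A' := by
    rw [h3, hA'def]
    push_cast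
    rw [← hA', m_eq, pow_add, pow_add, pow_add]
    field_simp
  have h5 := d.Y_le_y (t + 1)
  have h6 := d.y_lt_W (t + 1)
  unfold W at h6
  have h7 : d.y * (r : ℝ) ^ p = (A' * r ^ (p - m t) : ℕ) + (d.y - d.Y (t + 1)) * (r : ℝ) ^ p := by
    push_cast
    rw [← h4, mul_assoc, ← pow_add, Nat.add_sub_cancel' h1.le]
    ring
  have h8 : 0 ≤ (d.y - d.Y (t + 1)) * (r : ℝ) ^ p := mul_nonneg (by linarith) (by positivity)
  have h9 : (d.y - d.Y (t + 1)) * (r : ℝ) ^ p < 1 := by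
    have h10 : (r : ℝ) ^ p ≤ (r : ℝ) ^ k (t + 1) := pow_le_pow_right₀ (by linarith [d.r2]) h2
    have h11 : d.y - d.Y (t + 1) < 1 / (r : ℝ) ^ k (t + 1) := by linarith
    calc (d.y - d.Y (t + 1)) * (r : ℝ) ^ p ≤ (d.y - d.Y (t + 1)) * (r : ℝ) ^ k (t + 1) :=
          mul_le_mul_of_nonneg_left h10 (by linarith)
      _ < 1 / (r : ℝ) ^ k (t + 1) * (r : ℝ) ^ k (t + 1) :=
          mul_lt_mul_of_pos_right h11 (by positivity)
      _ = 1 := by field_simp
  have h12 : ⌊d.y * (r : ℝ) ^ p⌋ = ((A' * r ^ (p - m t) : ℕ) : ℤ) := by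
    rw [Int.floor_eq_iff, h7]
    push_cast at h8 h9 ⊢
    constructor <;> linarith
  rw [h12]
  have h13 : p - m t = (p - m t - 1) + 1 := by omega
  rw [h13, pow_succ, ← mul_assoc]
  push_cast
  exact Int.mul_emod_left _ _

lemma digit_zero' (p : ℕ) (h1 : 0 < p) (h2 : p ≤ k 0) :
    ⌊d.y * (r : ℝ) ^ p⌋ % (r : ℤ) = 0 := by
  have hr := d.r0
  have h5 := d.Y_le_y 0
  have h6 := d.y_lt_W 0
  unfold W at h6
  rw [d.Y0] at h5 h6
  have h8 : 0 ≤ (d.y - 1) * (r : ℝ) ^ p := mul_nonneg (by linarith) (by positivity)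
  have h9 : (d.y - 1) * (r : ℝ) ^ p < 1 := by
    have h10 : (r : ℝ) ^ p ≤ (r : ℝ) ^ k 0 := pow_le_pow_right₀ (by linarith [d.r2]) h2
    have h11 : d.y - 1 < 1 / (r : ℝ) ^ k 0 := by linarith
    calc (d.y - 1) * (r : ℝ) ^ p ≤ (d.y - 1) * (r : ℝ) ^ k 0 :=
          mul_le_mul_of_nonneg_left h10 (by linarith)
      _ < 1 / (r : ℝ) ^ k 0 * (r : ℝ) ^ k 0 :=
          mul_lt_mul_of_pos_right h11 (by positivity)
      _ = 1 := by field_simp
  have h12 : ⌊d.y * (r : ℝ) ^ p⌋ = ((r : ℤ) ^ p) := by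
    rw [Int.floor_eq_iff]
    push_cast
    constructor <;> linarith
  rw [h12]
  obtain ⟨p', rfl⟩ : ∃ p', p = p' + 1 := ⟨p - 1, by omega⟩
  rw [pow_succ]
  exact Int.mul_emod_left _ _

/-- the number of nonzero digits -/
noncomputable def bad (N : ℕ) : ℕ :=
  ((range N).filter (fun i => ⌊d.y * (r : ℝ) ^ (i + 1)⌋ % (r : ℤ) ≠ 0)).card

lemma bad_mono {M N : ℕ} (h : M ≤ N) : d.bad M ≤ d.bad N := by
  unfold bad
  exact card_le_card (filter_subset_filter _ (range_mono h))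

lemma bad_k (t : ℕ) : (d.bad (k t) : ℝ) ≤ ∑ j ∈ range t, 11 * (q j : ℝ) := by
  induction t with
  | zero =>
    have : d.bad (k 0) = 0 := by
      unfold bad
      rw [card_eq_zero, filter_eq_empty_iff]
      intro i hi
      rw [mem_range] at hi
      rw [not_not]
      exact d.digit_zero' (i + 1) (by omega) (by omega)
    rw [this]; simp
  | succ t ih =>
    rw [sum_range_succ]
    have h1 : (range (k (t + 1))).filter (fun i => ⌊d.y * (r : ℝ) ^ (i + 1)⌋ % (r : ℤ) ≠ 0)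
        ⊆ ((range (k t)).filter (fun i => ⌊d.y * (r : ℝ) ^ (i + 1)⌋ % (r : ℤ) ≠ 0))
          ∪ Ico (k t) (m t) := by
      intro i hi
      rw [mem_filter, mem_range] at hi
      rw [mem_union, mem_filter, mem_range, mem_Ico]
      rcases Nat.lt_or_ge i (k t) with h | h
      · left; exact ⟨h, hi.2⟩
      · right
        refine ⟨h, ?_⟩
        by_contra hc
        push Not at hc
        exact hi.2 (d.digit_zero t (i + 1) (by omega) (by omega))
    have h2 : d.bad (k (t + 1)) ≤ d.bad (k t) + 11 * q t := by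
      unfold bad
      refine (card_le_card h1).trans ((card_union_le _ _).trans ?_)
      rw [Nat.card_Ico]
      have := m_eq t
      rw [s_eq, l_eq] at this
      omega
    have h3 : (d.bad (k (t + 1)) : ℝ) ≤ d.bad (k t) + 11 * q t := by exact_mod_cast h2
    linarith

lemma bad_small : Tendsto (fun N : ℕ => (d.bad N : ℝ) / N) atTop (𝓝 0) := by
  rw [Metric.tendsto_atTop]
  intro ε hε
  obtain ⟨I, hI⟩ := eventually_atTop.1 (err_small 0 (ε / 8) (by positivity))
  refine ⟨(I + 41) * (I + 41), fun N hN => ?_⟩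
  have hs1 : I + 41 ≤ Nat.sqrt N := Nat.le_sqrt.2 hN
  set i := Nat.sqrt N - 40 with hi
  have hi40 : i + 40 = Nat.sqrt N := by omega
  have hki : k i = Nat.sqrt N * Nat.sqrt N := by rw [k_eq, hi40, sq]
  have hki2 : N < k (i + 1) := by
    rw [k_succ, hki, hi40]
    have := Nat.lt_succ_sqrt N
    nlinarith
  have hN0 : (0 : ℝ) < N := by
    have : 0 < N := by
      have h8 : 0 < (I + 41) * (I + 41) := by positivity
      omega
    exact_mod_cast this
  have h1 : (d.bad N : ℝ) ≤ d.bad (k (i + 1)) := by exact_mod_cast d.bad_mono hki2.le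
  have h2 := d.bad_k (i + 1)
  have h3 := hI (i + 1) (by omega)
  have h4 : ∑ j ∈ range (i + 1), (11 * (q j : ℝ) + 0) = ∑ j ∈ range (i + 1), 11 * (q j : ℝ) := by
    simp
  rw [h4] at h3
  have h5 : (0 : ℝ) ≤ k 0 := Nat.cast_nonneg _
  have h6 : (k (i + 1) : ℝ) ≤ 4 * N := by
    have : k (i + 1) ≤ 4 * N := by
      rw [k_succ, hki, hi40]
      have := Nat.sqrt_le N
      nlinarith
    exact_mod_cast this
  have h7 : (d.bad N : ℝ) ≤ ε / 2 * N := by
    have : ε / 8 * (k (i + 1) : ℝ) ≤ ε / 8 * (4 * N) := mul_le_mul_of_nonneg_left h6 (by positivity)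
    linarith
  rw [Real.dist_eq, sub_zero, abs_of_nonneg (by positivity), div_lt_iff₀ hN0]
  have : 0 < ε * N := by positivity
  linarith

open Classical in
/-- the entropy of the digits of `y` is zero -/
lemma det : ∀ ε : ℝ, 0 < ε → ∃ n : ℕ, 1 ≤ n ∧ ∃ N0 : ℕ, ∀ N : ℕ, N0 ≤ N →
        ∑ w : Fin n → Fin r,
          Real.negMulLog
            ((((Finset.range N).filter
                (fun i => ∀ j : Fin n,
                  ⌊d.y * (r : ℝ) ^ (i + (j : ℕ) + 1)⌋ % (r : ℤ) = ((w j : ℕ) : ℤ))).card : ℝ)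
              / (N : ℝ)) < ε * n := by
  intro ε hε
  have hr2 := d.hr
  -- limits of the frequencies
  have hlim : ∀ w : Fin 1 → Fin r, Tendsto (fun N : ℕ =>
      ((((Finset.range N).filter
                (fun i => ∀ j : Fin 1,
                  ⌊d.y * (r : ℝ) ^ (i + (j : ℕ) + 1)⌋ % (r : ℤ) = ((w j : ℕ) : ℤ))).card : ℝ)
              / (N : ℝ))) atTop (𝓝 (if (w 0 : ℕ) = 0 then 1 else 0)) := by
    intro w
    split_ifs with hw
    · have h1 : Tendsto (fun N : ℕ => 1 - (d.bad N : ℝ) / N) atTop (𝓝 (1 - 0)) :=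
        d.bad_small.const_sub 1
      rw [sub_zero] at h1
      refine h1.congr' ?_
      filter_upwards [eventually_gt_atTop 0] with N hN
      have hN' : (N : ℝ) ≠ 0 := by positivity
      rw [eq_div_iff hN', sub_mul, div_mul_cancel₀ _ hN', one_mul]
      have h2 := Finset.card_filter_add_card_filter_not (s := range N)
        (fun i => ⌊d.y * (r : ℝ) ^ (i + 1)⌋ % (r : ℤ) ≠ 0)
      rw [card_range] at h2
      have h3 : (range N).filter (fun i => ¬ (⌊d.y * (r : ℝ) ^ (i + 1)⌋ % (r : ℤ) ≠ 0))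
          = (Finset.range N).filter
                (fun i => ∀ j : Fin 1,
                  ⌊d.y * (r : ℝ) ^ (i + (j : ℕ) + 1)⌋ % (r : ℤ) = ((w j : ℕ) : ℤ)) := by
        apply filter_congr
        intro i _
        rw [not_not]
        constructor
        · intro h j
          have hj : j = 0 := Subsingleton.elim _ _
          subst hj
          simp only [Fin.val_zero, add_zero]
          rw [h, hw]; rfl
        · intro h
          have := h 0
          simp only [Fin.val_zero, add_zero] at this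
          rw [this, hw]; rfl
      rw [h3] at h2
      have h4 : ((d.bad N + _ : ℕ) : ℝ) = (N : ℝ) := congrArg (Nat.cast : ℕ → ℝ) h2
      push_cast at h4
      linarith
    · refine squeeze_zero (fun N => by positivity) (fun N => ?_) d.bad_small
      apply div_le_div_of_nonneg_right _ (by positivity)
      refine Nat.cast_le.2 ?_
      unfold bad
      apply card_le_card
      intro i hi
      rw [mem_filter] at hi ⊢
      refine ⟨hi.1, ?_⟩
      have := hi.2 0
      simp only [Fin.val_zero, add_zero] at this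
      rw [this]
      exact_mod_cast hw
  have hsum : Tendsto (fun N : ℕ => ∑ w : Fin 1 → Fin r,
          Real.negMulLog
            ((((Finset.range N).filter
                (fun i => ∀ j : Fin 1,
                  ⌊d.y * (r : ℝ) ^ (i + (j : ℕ) + 1)⌋ % (r : ℤ) = ((w j : ℕ) : ℤ))).card : ℝ)
              / (N : ℝ))) atTop (𝓝 (∑ _w : Fin 1 → Fin r, (0 : ℝ))) := by
    apply tendsto_finsetSum
    intro w _
    have h1 := (Real.continuous_negMulLog.tendsto _).comp (hlim w)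
    have h2 : Real.negMulLog (if (w 0 : ℕ) = 0 then 1 else 0) = 0 := by
      split_ifs <;> simp
    rw [h2] at h1
    exact h1
  rw [Finset.sum_const_zero] at hsum
  obtain ⟨N0, hN0⟩ := eventually_atTop.1 (hsum.eventually (Iio_mem_nhds hε))
  refine ⟨1, le_refl _, N0, fun N hN => ?_⟩
  have := hN0 N hN
  simpa using this

end Dat

end Pool.Agent.Run7.h792.RN
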